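import Mathlib

set_option autoImplicit false

namespace Pool.Agent.RadSemi

open AddMonoidAlgebra Filter Topology

/-- A submultiplicative radical weight on the nonnegative rationals. -/
structure Weight where
  /-- the weight function -/
  w : ℚ≥0 → ℝ
  pos : ∀ s, 0 < w s
  add_le : ∀ s t, w (s + t) ≤ w s * w t
  zero : w 0 = 1
  half : 1 ≤ w (1 / 2)
  /-- constants bounding the weight from below -/
  low : ℕ → ℝ
  low_spec : ∀ (T : ℕ) (s : ℚ≥0), s < T → 1 ≤ low T * w s
  rad : ∀ s : ℚ≥0, 0 < s → ∀ ε : ℝ, 0 < ε → ∃ n : ℕ, 0 < n ∧ w (n * s) ≤ ε ^ n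

lemma Weight.nonneg (W : Weight) (s : ℚ≥0) : 0 ≤ W.w s := (W.pos s).le

lemma Weight.low_pos (W : Weight) (T : ℕ) (hT : 0 < T) : 0 < W.low T := by
  have h := W.low_spec T 0 (by exact_mod_cast hT)
  rw [W.zero, mul_one] at h
  linarith

/-- The weighted `ℓ¹` norm on finitely supported functions. -/
noncomputable def wnorm (W : Weight) (x : AddMonoidAlgebra ℂ ℚ≥0) : ℝ :=
  x.coeff.sum fun s c => ‖c‖ * W.w s

lemma wnorm_eq_sum (W : Weight) (x : AddMonoidAlgebra ℂ ℚ≥0) (U : Finset ℚ≥0)
    (hU : x.coeff.support ⊆ U) : wnorm W x = ∑ s ∈ U, ‖x.coeff s‖ * W.w s := by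
  unfold wnorm
  rw [Finsupp.sum_of_support_subset _ hU]
  intro i _
  simp

lemma wnorm_nonneg (W : Weight) (x : AddMonoidAlgebra ℂ ℚ≥0) : 0 ≤ wnorm W x := by
  rw [wnorm_eq_sum W x _ subset_rfl]
  exact Finset.sum_nonneg fun s _ => mul_nonneg (norm_nonneg _) (W.nonneg s)

lemma wnorm_zero (W : Weight) : wnorm W 0 = 0 := by
  simp [wnorm]

lemma wnorm_single (W : Weight) (s : ℚ≥0) (c : ℂ) : wnorm W (single s c) = ‖c‖ * W.w s := by
  simp [wnorm]

lemma wnorm_add_le (W : Weight) (x y : AddMonoidAlgebra ℂ ℚ≥0) :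
    wnorm W (x + y) ≤ wnorm W x + wnorm W y := by
  classical
  have h1 : x.coeff.support ⊆ x.coeff.support ∪ y.coeff.support := Finset.subset_union_left
  have h2 : y.coeff.support ⊆ x.coeff.support ∪ y.coeff.support := Finset.subset_union_right
  have h3 : (x + y).coeff.support ⊆ x.coeff.support ∪ y.coeff.support := by
    rw [coeff_add]; exact Finsupp.support_add
  rw [wnorm_eq_sum W x _ h1, wnorm_eq_sum W y _ h2, wnorm_eq_sum W (x + y) _ h3,
    ← Finset.sum_add_distrib]
  apply Finset.sum_le_sum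
  intro s _
  rw [← add_mul]
  apply mul_le_mul_of_nonneg_right _ (W.nonneg s)
  rw [coeff_add]
  exact norm_add_le _ _

lemma wnorm_smul (W : Weight) (c : ℂ) (x : AddMonoidAlgebra ℂ ℚ≥0) :
    wnorm W (c • x) = ‖c‖ * wnorm W x := by
  rw [wnorm_eq_sum W x _ subset_rfl, wnorm_eq_sum W (c • x) x.coeff.support, Finset.mul_sum]
  · apply Finset.sum_congr rfl
    intro s _
    rw [coeff_smul]
    simp [mul_assoc]
  · rw [coeff_smul]
    exact Finsupp.support_smul

lemma wnorm_neg (W : Weight) (x : AddMonoidAlgebra ℂ ℚ≥0) : wnorm W (-x) = wnorm W x := by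
  have := wnorm_smul W (-1) x
  simpa using this

lemma wnorm_sum_le (W : Weight) {ι : Type*} (U : Finset ι) (f : ι → AddMonoidAlgebra ℂ ℚ≥0) :
    wnorm W (∑ i ∈ U, f i) ≤ ∑ i ∈ U, wnorm W (f i) := by
  classical
  induction U using Finset.induction_on with
  | empty => simp [wnorm_zero]
  | insert a U ha ih =>
    rw [Finset.sum_insert ha, Finset.sum_insert ha]
    exact (wnorm_add_le W _ _).trans (by linarith)

lemma wnorm_mul_le (W : Weight) (x y : AddMonoidAlgebra ℂ ℚ≥0) :
    wnorm W (x * y) ≤ wnorm W x * wnorm W y := by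
  have h : x * y = ∑ s ∈ x.coeff.support, ∑ t ∈ y.coeff.support,
      single (s + t) (x.coeff s * y.coeff t) := by
    rw [mul_def]; rfl
  rw [h, wnorm_eq_sum W x _ subset_rfl, wnorm_eq_sum W y _ subset_rfl, Finset.sum_mul_sum]
  refine (wnorm_sum_le W _ _).trans (Finset.sum_le_sum fun s _ => ?_)
  refine (wnorm_sum_le W _ _).trans (Finset.sum_le_sum fun t _ => ?_)
  rw [wnorm_single, norm_mul]
  calc ‖x.coeff s‖ * ‖y.coeff t‖ * W.w (s + t)
      ≤ ‖x.coeff s‖ * ‖y.coeff t‖ * (W.w s * W.w t) :=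
        mul_le_mul_of_nonneg_left (W.add_le s t) (by positivity)
    _ = ‖x.coeff s‖ * W.w s * (‖y.coeff t‖ * W.w t) := by ring

/-- A linear map which is bounded by the weight on monomials is bounded by the norm. -/
lemma norm_le_wnorm (W : Weight) {V : Type*} [SeminormedAddCommGroup V] [NormedSpace ℂ V]
    (L : AddMonoidAlgebra ℂ ℚ≥0 →ₗ[ℂ] V) (C : ℝ)
    (hL : ∀ s, ‖L (single s 1)‖ ≤ C * W.w s)
    (x : AddMonoidAlgebra ℂ ℚ≥0) : ‖L x‖ ≤ C * wnorm W x := by
  have h : x = ∑ s ∈ x.coeff.support, x.coeff s • (single s (1 : ℂ)) := by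
    conv_lhs => rw [← sum_coeff_single x]
    unfold Finsupp.sum
    apply Finset.sum_congr rfl
    intro s _
    rw [smul_single]; simp
  conv_lhs => rw [h]
  rw [map_sum, wnorm_eq_sum W x _ subset_rfl, Finset.mul_sum]
  refine (norm_sum_le _ _).trans (Finset.sum_le_sum fun s _ => ?_)
  rw [map_smul, norm_smul]
  calc ‖x.coeff s‖ * ‖L (single s 1)‖ ≤ ‖x.coeff s‖ * (C * W.w s) :=
        mul_le_mul_of_nonneg_left (hL s) (norm_nonneg _)
    _ = C * (‖x.coeff s‖ * W.w s) := by ring

/-- The algebra of finitely supported functions, with the weighted norm. -/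
def A0 (_W : Weight) : Type := AddMonoidAlgebra ℂ ℚ≥0

noncomputable instance (W : Weight) : CommRing (A0 W) :=
  inferInstanceAs (CommRing (AddMonoidAlgebra ℂ ℚ≥0))

noncomputable instance (W : Weight) : Algebra ℂ (A0 W) :=
  inferInstanceAs (Algebra ℂ (AddMonoidAlgebra ℂ ℚ≥0))

/-- The weighted norm as a group seminorm. -/
noncomputable def agSeminorm (W : Weight) : AddGroupSeminorm (A0 W) where
  toFun := fun x => wnorm W x
  map_zero' := wnorm_zero W
  add_le' := wnorm_add_le W
  neg' := wnorm_neg W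

noncomputable instance (W : Weight) : SeminormedAddCommGroup (A0 W) :=
  (agSeminorm W).toSeminormedAddCommGroup

lemma norm_A0 (W : Weight) (x : A0 W) : ‖x‖ = wnorm W x := rfl

noncomputable instance (W : Weight) : SeminormedCommRing (A0 W) :=
  { (inferInstance : SeminormedAddCommGroup (A0 W)), (inferInstance : CommRing (A0 W)) with
    norm_mul_le := wnorm_mul_le W }

noncomputable instance (W : Weight) : NormedAlgebra ℂ (A0 W) where
  norm_smul_le c x := (wnorm_smul W c x).le

/-- The coefficients of an element of `A0 W`. -/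
noncomputable def co {W : Weight} (x : A0 W) : ℚ≥0 →₀ ℂ :=
  AddMonoidAlgebra.coeff (x : AddMonoidAlgebra ℂ ℚ≥0)

/-- Monomials. -/
noncomputable def mon (W : Weight) (s : ℚ≥0) (c : ℂ) : A0 W := AddMonoidAlgebra.single s c

lemma co_add {W : Weight} (x y : A0 W) : co (x + y) = co x + co y := rfl

lemma co_smul {W : Weight} (c : ℂ) (x : A0 W) : co (c • x) = c • co x := rfl

lemma co_mon (W : Weight) (s : ℚ≥0) (c : ℂ) : co (mon W s c) = Finsupp.single s c := rfl

lemma mon_mul_mon (W : Weight) (s t : ℚ≥0) (c d : ℂ) :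
    mon W s c * mon W t d = mon W (s + t) (c * d) := single_mul_single s t c d

lemma norm_mon (W : Weight) (s : ℚ≥0) (c : ℂ) : ‖mon W s c‖ = ‖c‖ * W.w s := wnorm_single W s c

lemma mon_eq_smul (W : Weight) (s : ℚ≥0) (c : ℂ) : mon W s c = c • mon W s 1 := by
  have : c • mon W s 1 = mon W s (c • 1) := AddMonoidAlgebra.smul_single c s 1
  rw [this]; simp

/-- Linear induction on `A0 W`. -/
lemma A0_induction {W : Weight} {P : A0 W → Prop} (x : A0 W) (h0 : P 0)
    (hadd : ∀ x y, P x → P y → P (x + y)) (hmon : ∀ s c, P (mon W s c)) : P x :=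
  AddMonoidAlgebra.induction_linear (motive := P) x h0 hadd hmon

/-- The completed algebra `ℓ¹(ℚ≥0, w)`. -/
abbrev AA (W : Weight) : Type := UniformSpace.Completion (A0 W)

/-- The monomial `δ_s`. -/
noncomputable def dl (W : Weight) (s : ℚ≥0) : AA W := ((mon W s 1 : A0 W) : AA W)

lemma coe_mon (W : Weight) (s : ℚ≥0) (c : ℂ) : ((mon W s c : A0 W) : AA W) = c • dl W s := by
  rw [mon_eq_smul]
  exact UniformSpace.Completion.coe_smul _ _

lemma dl_add (W : Weight) (s t : ℚ≥0) : dl W (s + t) = dl W s * dl W t := by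
  unfold dl
  rw [← UniformSpace.Completion.coe_mul, mon_mul_mon, one_mul]

lemma dl_zero (W : Weight) : dl W 0 = 1 := rfl

lemma norm_dl (W : Weight) (s : ℚ≥0) : ‖dl W s‖ = W.w s := by
  unfold dl
  rw [UniformSpace.Completion.norm_coe, norm_mon]; simp

lemma dl_pow (W : Weight) (s : ℚ≥0) (n : ℕ) : dl W s ^ n = dl W (n * s) := by
  induction n with
  | zero => simp [dl_zero]
  | succ n ih => rw [pow_succ, ih, ← dl_add]; congr 1; push_cast; ring

instance (W : Weight) : NormOneClass (AA W) := ⟨by rw [← dl_zero, norm_dl, W.zero]⟩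

section Maps

variable {W : Weight} {V : Type*} [NormedAddCommGroup V] [NormedSpace ℂ V]

/-- A closed property stable under addition and true for multiples of monomials holds on
`AA W`. -/
lemma AA_induction {P : AA W → Prop} (x : AA W) (hcl : IsClosed {x | P x})
    (hadd : ∀ x y, P x → P y → P (x + y)) (hmon : ∀ (s : ℚ≥0) (c : ℂ), P (c • dl W s)) : P x := by
  induction x using UniformSpace.Completion.induction_on with
  | hp => exact hcl
  | ih x =>
    induction x using A0_induction with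
    | h0 =>
      have := hmon 0 0
      rw [zero_smul] at this
      rw [UniformSpace.Completion.coe_zero]
      exact this
    | hadd x y hx hy =>
      rw [UniformSpace.Completion.coe_add]
      exact hadd _ _ hx hy
    | hmon s c =>
      rw [coe_mon]
      exact hmon s c

lemma ext_dl (L L' : AA W →L[ℂ] V) (h : ∀ s, L (dl W s) = L' (dl W s)) (x : AA W) :
    L x = L' x := by
  induction x using AA_induction with
  | hcl => exact isClosed_eq L.continuous L'.continuous
  | hadd x y hx hy => rw [map_add, map_add, hx, hy]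
  | hmon s c => rw [map_smul, map_smul, h]

/-- A continuous linear map bounded by the weight on monomials is bounded by the norm. -/
lemma op_bound (L : AA W →L[ℂ] V) (C : ℝ) (h : ∀ s, ‖L (dl W s)‖ ≤ C * W.w s) (x : AA W) :
    ‖L x‖ ≤ C * ‖x‖ := by
  induction x using UniformSpace.Completion.induction_on with
  | hp => exact isClosed_le (L.continuous.norm) (continuous_const.mul continuous_norm)
  | ih x =>
    rw [UniformSpace.Completion.norm_coe]
    have := norm_le_wnorm W (V := V)
      ((L.toLinearMap.comp (UniformSpace.Completion.toComplL : A0 W →L[ℂ] AA W).toLinearMap :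
        A0 W →ₗ[ℂ] V)) C (fun s => h s) x
    exact this

/-- Pointwise convergence of a bounded sequence of operators can be tested on monomials. -/
lemma tendsto_of_dl (L : ℕ → AA W →L[ℂ] V) (L' : AA W →L[ℂ] V) (C : ℝ)
    (hC : ∀ n x, ‖L n x‖ ≤ C * ‖x‖)
    (h : ∀ s, Tendsto (fun n => L n (dl W s)) atTop (𝓝 (L' (dl W s)))) (x : AA W) :
    Tendsto (fun n => L n x) atTop (𝓝 (L' x)) := by
  have hC0 : 0 ≤ C := by
    have h1 := hC 0 1
    rw [norm_one, mul_one] at h1
    exact (norm_nonneg _).trans h1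
  have hf : ∀ f : A0 W, Tendsto (fun n => L n (f : AA W)) atTop (𝓝 (L' (f : AA W))) := by
    intro f
    induction f using A0_induction with
    | h0 =>
      rw [UniformSpace.Completion.coe_zero]
      simp
    | hadd x y hx hy =>
      rw [UniformSpace.Completion.coe_add, map_add]
      refine (hx.add hy).congr fun n => ?_
      rw [map_add]
    | hmon s c =>
      rw [coe_mon, map_smul]
      refine ((h s).const_smul c).congr fun n => ?_
      rw [map_smul]
  rw [Metric.tendsto_atTop]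
  intro ε hε
  obtain ⟨f, hf1⟩ : ∃ f : A0 W, dist x (f : AA W) < ε / (3 * (C + ‖L'‖ + 1)) :=
    (UniformSpace.Completion.denseRange_coe (α := A0 W)).exists_dist_lt x (by positivity)
  rw [dist_eq_norm] at hf1
  obtain ⟨N, hN⟩ := (Metric.tendsto_atTop.mp (hf f)) (ε / 3) (by positivity)
  refine ⟨N, fun n hn => ?_⟩
  have h1 := hN n hn
  rw [dist_eq_norm] at h1 ⊢
  have e : L n x - L' x = L n (x - f) + (L n f - L' f) - L' (x - f) := by
    rw [map_sub, map_sub]; abel
  rw [e]
  have hL' : ‖L' (x - f)‖ ≤ ‖L'‖ * ‖x - f‖ := L'.le_opNorm _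
  have hL := hC n (x - f)
  have hpos : 0 < C + ‖L'‖ + 1 := by positivity
  rw [lt_div_iff₀ (by positivity)] at hf1
  have h5 : ‖L n (x - f) + (L n f - L' f) - L' (x - f)‖
      ≤ ‖L n (x - f)‖ + ‖L n f - L' f‖ + ‖L' (x - f)‖ :=
    (norm_sub_le _ _).trans (by gcongr; exact norm_add_le _ _)
  have h6 : 0 ≤ ‖x - (f : AA W)‖ := norm_nonneg _
  nlinarith

/-- The functional on `A0 W` given by a function on `ℚ≥0`. -/
noncomputable def fn0 (W : Weight) (φ : ℚ≥0 → ℂ) : A0 W →ₗ[ℂ] ℂ where
  toFun := fun x => Finsupp.linearCombination ℂ φ (co x)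
  map_add' := by
    intro x y
    rw [co_add, map_add]
  map_smul' := by
    intro c x
    rw [co_smul, map_smul, RingHom.id_apply]

lemma fn0_mon (φ : ℚ≥0 → ℂ) (s : ℚ≥0) (c : ℂ) : fn0 W φ (mon W s c) = c * φ s := by
  show Finsupp.linearCombination ℂ φ (co (mon W s c)) = _
  rw [co_mon, Finsupp.linearCombination_single, smul_eq_mul]

lemma fn0_bound (φ : ℚ≥0 → ℂ) (C : ℝ) (hφ : ∀ s, ‖φ s‖ ≤ C * W.w s) (x : A0 W) :
    ‖fn0 W φ x‖ ≤ C * ‖x‖ :=
  norm_le_wnorm W (fn0 W φ) C (fun s => by
    have := fn0_mon (W := W) φ s 1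
    rw [one_mul] at this
    exact (le_of_eq (congrArg norm this)).trans (hφ s)) x

/-- The functional on `AA W` given by a function on `ℚ≥0` dominated by the weight. -/
noncomputable def fn (W : Weight) (φ : ℚ≥0 → ℂ) (C : ℝ) (hφ : ∀ s, ‖φ s‖ ≤ C * W.w s) :
    AA W →L[ℂ] ℂ :=
  ((fn0 W φ).mkContinuous C (fn0_bound φ C hφ)).extend
    (UniformSpace.Completion.toComplL : A0 W →L[ℂ] AA W)

lemma fn_coe (φ : ℚ≥0 → ℂ) (C : ℝ) (hφ : ∀ s, ‖φ s‖ ≤ C * W.w s) (x : A0 W) :
    fn W φ C hφ (x : AA W) = fn0 W φ x := by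
  have h := ContinuousLinearMap.extend_eq ((fn0 W φ).mkContinuous C (fn0_bound φ C hφ))
    (e := (UniformSpace.Completion.toComplL : A0 W →L[ℂ] AA W))
    (by rw [UniformSpace.Completion.coe_toComplL]; exact UniformSpace.Completion.denseRange_coe)
    (by rw [UniformSpace.Completion.coe_toComplL]
        exact UniformSpace.Completion.isUniformInducing_coe _) x
  exact h

lemma fn_dl (φ : ℚ≥0 → ℂ) (C : ℝ) (hφ : ∀ s, ‖φ s‖ ≤ C * W.w s) (s : ℚ≥0) :
    fn W φ C hφ (dl W s) = φ s := by
  unfold dl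
  rw [fn_coe, fn0_mon, one_mul]

lemma fn_bound (φ : ℚ≥0 → ℂ) (C : ℝ) (hφ : ∀ s, ‖φ s‖ ≤ C * W.w s) (x : AA W) :
    ‖fn W φ C hφ x‖ ≤ C * ‖x‖ :=
  op_bound _ C (fun s => by rw [fn_dl]; exact hφ s) x

end Maps

/-- The coefficient functional on the completed algebra. -/
noncomputable def cf (W : Weight) (s : ℚ≥0) : AA W →L[ℂ] ℂ :=
  fn W (fun t => if t = s then 1 else 0) (1 / W.w s) (by
    intro t
    have h := W.pos s
    have h' := W.pos t
    by_cases hts : t = s
    · subst hts
      rw [if_pos rfl, norm_one, one_div, inv_mul_cancel₀ h.ne']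
    · rw [if_neg hts, norm_zero]
      positivity)

lemma cf_dl (W : Weight) (s t : ℚ≥0) : cf W s (dl W t) = if t = s then 1 else 0 :=
  fn_dl _ _ _ t

lemma norm_cf_le (W : Weight) (s : ℚ≥0) (x : AA W) : ‖cf W s x‖ ≤ ‖x‖ / W.w s := by
  have h := op_bound (cf W s) (1 / W.w s) (by
    intro t
    rw [cf_dl]
    have h := W.pos s
    have h' := W.pos t
    by_cases hts : t = s
    · subst hts
      rw [if_pos rfl, norm_one, one_div, inv_mul_cancel₀ h.ne']
    · rw [if_neg hts, norm_zero]
      positivity) x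
  refine h.trans (le_of_eq ?_)
  rw [one_div, inv_mul_eq_div]

lemma norm_cf_le_low (W : Weight) (T : ℕ) (s : ℚ≥0) (hs : s < T) (x : AA W) :
    ‖cf W s x‖ ≤ W.low T * ‖x‖ := by
  refine (norm_cf_le W s x).trans ?_
  rw [div_le_iff₀ (W.pos s)]
  have := W.low_spec T s hs
  nlinarith [norm_nonneg x]

lemma cf_coe (W : Weight) (s : ℚ≥0) (x : A0 W) : cf W s (x : AA W) = co x s := by
  induction x using A0_induction with
  | h0 =>
    rw [UniformSpace.Completion.coe_zero, map_zero]; rfl
  | hadd x y hx hy =>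
    rw [UniformSpace.Completion.coe_add, map_add, hx, hy, co_add]; rfl
  | hmon t c =>
    rw [coe_mon, map_smul, cf_dl, co_mon, Finsupp.single_apply, smul_eq_mul]
    split_ifs <;> simp

lemma cf_sum_le (W : Weight) (U : Finset ℚ≥0) (x : AA W) :
    ∑ s ∈ U, ‖cf W s x‖ * W.w s ≤ ‖x‖ := by
  induction x using UniformSpace.Completion.induction_on with
  | hp => apply isClosed_le <;> fun_prop
  | ih x =>
    classical
    rw [UniformSpace.Completion.norm_coe]
    simp only [cf_coe]
    rw [norm_A0, wnorm_eq_sum W x _ (Finset.subset_union_right (s₁ := U))]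
    apply Finset.sum_le_sum_of_subset_of_nonneg Finset.subset_union_left
    intro s _ _
    exact mul_nonneg (norm_nonneg _) (W.nonneg s)

/-- The coefficient functionals separate points. -/
lemma eq_zero_of_cf (W : Weight) (x : AA W) (h : ∀ s, cf W s x = 0) : x = 0 := by
  rw [← norm_eq_zero]
  apply le_antisymm _ (norm_nonneg _)
  apply le_of_forall_pos_le_add
  intro ε hε
  obtain ⟨f, hf⟩ : ∃ f : A0 W, dist x (f : AA W) < ε / 2 :=
    (UniformSpace.Completion.denseRange_coe (α := A0 W)).exists_dist_lt x (by positivity)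
  rw [dist_eq_norm] at hf
  have h1 := cf_sum_le W (co f).support (x - f)
  have h2 : ∑ s ∈ (co f).support,
      ‖cf W s (x - f)‖ * W.w s = ‖f‖ := by
    rw [norm_A0, wnorm_eq_sum W f _ subset_rfl]
    apply Finset.sum_congr rfl
    intro s _
    rw [map_sub, h s, zero_sub, norm_neg, cf_coe]
    rfl
  have h3 : ‖x‖ ≤ ‖x - f‖ + ‖(f : AA W)‖ := by
    have := norm_add_le (x - f) (f : AA W)
    simpa using this
  rw [UniformSpace.Completion.norm_coe] at h3
  rw [h2] at h1
  linarith

/-- Left multiplication as a continuous linear map. -/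
noncomputable def lm {W : Weight} (x : AA W) : AA W →L[ℂ] AA W := ContinuousLinearMap.mul ℂ (AA W) x

lemma lm_apply {W : Weight} (x y : AA W) : lm x y = x * y := rfl

/-- The constant coefficient is multiplicative. -/
lemma cf_zero_mul (W : Weight) (x y : AA W) : cf W 0 (x * y) = cf W 0 x * cf W 0 y := by
  have h1 : ∀ s, ∀ y : AA W, cf W 0 (dl W s * y) = cf W 0 (dl W s) * cf W 0 y := by
    intro s y
    have := ext_dl ((cf W 0).comp (lm (dl W s))) (cf W 0 (dl W s) • cf W 0) (by
      intro t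
      show cf W 0 (dl W s * dl W t) = cf W 0 (dl W s) * cf W 0 (dl W t)
      rw [← dl_add, cf_dl, cf_dl, cf_dl]
      by_cases hs : s = 0
      · subst hs; simp
      · have : s + t ≠ 0 := fun h => hs (add_eq_zero.mp h).1
        simp [hs, this]) y
    exact this
  have := ext_dl ((cf W 0).comp (lm y)) (cf W 0 y • cf W 0) (by
    intro s
    show cf W 0 (y * dl W s) = cf W 0 y * cf W 0 (dl W s)
    rw [mul_comm, h1, mul_comm]) x
  show cf W 0 (x * y) = _
  rw [mul_comm x y, mul_comm (cf W 0 x)]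
  exact this

lemma cf_zero_one (W : Weight) : cf W 0 (1 : AA W) = 1 := by
  rw [← dl_zero, cf_dl, if_pos rfl]

/-- Every character of `AA W` is the constant coefficient. -/
lemma char_eq (W : Weight) (φ : WeakDual.characterSpace ℂ (AA W)) (x : AA W) :
    φ x = cf W 0 x := by
  have hle : ∀ a : AA W, ‖φ a‖ ≤ ‖a‖ := by
    intro a
    exact spectrum.norm_le_norm_of_mem (AlgHom.apply_mem_spectrum φ a)
  have h := ext_dl (WeakDual.CharacterSpace.toCLM φ) (cf W 0) (by
    intro s
    show φ (dl W s) = _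
    rw [cf_dl]
    by_cases hs : s = 0
    · subst hs
      rw [if_pos rfl, dl_zero, map_one]
    · rw [if_neg hs]
      rw [← norm_eq_zero]
      apply le_antisymm _ (norm_nonneg _)
      apply le_of_forall_pos_le_add
      intro ε hε
      rw [zero_add]
      obtain ⟨n, hn, hw⟩ := W.rad s (pos_iff_ne_zero.mpr hs) ε hε
      have h1 : ‖φ (dl W s)‖ ^ n ≤ ε ^ n := by
        rw [← norm_pow, ← map_pow, dl_pow]
        exact (hle _).trans (by rw [norm_dl]; exact hw)
      exact le_of_pow_le_pow_left₀ (by omega) hε.le h1) x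
  exact h

lemma spectrum_eq (W : Weight) (x : AA W) : spectrum ℂ x = {cf W 0 x} := by
  ext z
  rw [WeakDual.CharacterSpace.mem_spectrum_iff_exists, Set.mem_singleton_iff]
  constructor
  · rintro ⟨φ, hφ⟩
    rw [← hφ, char_eq]
  · intro hz
    have : Nontrivial (AA W) := NormOneClass.nontrivial
    obtain ⟨z', hz'⟩ := spectrum.nonempty x
    rw [WeakDual.CharacterSpace.mem_spectrum_iff_exists] at hz'
    obtain ⟨φ, hφ⟩ := hz'
    exact ⟨φ, by rw [char_eq, hz]⟩

/-- Elements with nonzero constant coefficient are invertible. -/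
lemma isUnit_of_cf_ne_zero (W : Weight) (x : AA W) (hx : cf W 0 x ≠ 0) : IsUnit x := by
  rw [← spectrum.zero_notMem_iff ℂ, spectrum_eq, Set.mem_singleton_iff]
  exact fun h => hx h.symm

end Pool.Agent.RadSemi
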