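import Mathlib
import Pool.Agent.RadSemi.Alg

set_option autoImplicit false

namespace Pool.Agent.RadSemi

open Filter Topology

/-- The truncated exponential function on `ℚ≥0`. -/
noncomputable def lamFun (T : ℕ) (z : ℂ) (s : ℚ≥0) : ℂ :=
  if s < T then Complex.exp (-((s : ℝ) : ℂ) * z) else 0

lemma norm_exp_re (s : ℚ≥0) (z : ℂ) :
    ‖Complex.exp (-((s : ℝ) : ℂ) * z)‖ = Real.exp (-(s : ℝ) * z.re) := by
  rw [Complex.norm_exp]
  congr 1
  rw [neg_mul, Complex.neg_re, Complex.re_ofReal_mul, neg_mul]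

lemma lamFun_le (W : Weight) (T : ℕ) (hT : 0 < T) (z : ℂ) (hz : 0 ≤ z.re) (s : ℚ≥0) :
    ‖lamFun T z s‖ ≤ W.low T * W.w s := by
  unfold lamFun
  by_cases hs : s < T
  · rw [if_pos hs, norm_exp_re]
    refine le_trans ?_ (W.low_spec T s hs)
    apply Real.exp_le_one_iff.mpr
    have h0 : (0 : ℝ) ≤ s := by positivity
    nlinarith
  · rw [if_neg hs, norm_zero]
    exact mul_nonneg (W.low_pos T hT).le (W.nonneg s)

/-- The truncated Laplace transform. -/
noncomputable def lam (W : Weight) (T : ℕ) (hT : 0 < T) (z : ℂ) (hz : 0 ≤ z.re) : AA W →L[ℂ] ℂ :=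
  fn W (lamFun T z) (W.low T) (lamFun_le W T hT z hz)

lemma lam_dl (W : Weight) (T : ℕ) (hT : 0 < T) (z : ℂ) (hz : 0 ≤ z.re) (s : ℚ≥0) :
    lam W T hT z hz (dl W s) = if s < T then Complex.exp (-((s : ℝ) : ℂ) * z) else 0 :=
  fn_dl _ _ _ s

lemma lam_le (W : Weight) (T : ℕ) (hT : 0 < T) (z : ℂ) (hz : 0 ≤ z.re) (x : AA W) :
    ‖lam W T hT z hz x‖ ≤ W.low T * ‖x‖ := fn_bound _ _ _ x

lemma lam_mul_dl (W : Weight) (T : ℕ) (hT : 0 < T) (z : ℂ) (hz : 0 ≤ z.re) (s t : ℚ≥0) :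
    ‖lam W T hT z hz (dl W s) * lam W T hT z hz (dl W t) - lam W T hT z hz (dl W s * dl W t)‖
      ≤ (W.low T ^ 2 * Real.exp (-(T : ℝ) * z.re)) * (W.w s * W.w t) := by
  have hlow := W.low_pos T hT
  have hR : 0 ≤ (W.low T ^ 2 * Real.exp (-(T : ℝ) * z.re)) * (W.w s * W.w t) := by
    have h1 := W.pos s
    have h2 := W.pos t
    positivity
  rw [← dl_add, lam_dl, lam_dl, lam_dl]
  by_cases hst : s + t < T
  · have hs : s < T := lt_of_le_of_lt le_self_add hst
    have ht : t < T := lt_of_le_of_lt le_add_self hst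
    rw [if_pos hs, if_pos ht, if_pos hst, ← Complex.exp_add]
    have e : -((s : ℝ) : ℂ) * z + -((t : ℝ) : ℂ) * z = -(((s + t : ℚ≥0) : ℝ) : ℂ) * z := by
      push_cast; ring
    rw [e, sub_self, norm_zero]
    exact hR
  · rw [if_neg hst, sub_zero]
    by_cases hs : s < T
    · by_cases ht : t < T
      · rw [if_pos hs, if_pos ht, norm_mul, norm_exp_re, norm_exp_re, ← Real.exp_add]
        have h1 := W.low_spec T s hs
        have h2 := W.low_spec T t ht
        have h3 : 1 ≤ (W.low T * W.w s) * (W.low T * W.w t) := by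
          calc (1 : ℝ) = 1 * 1 := by ring
            _ ≤ _ := mul_le_mul h1 h2 zero_le_one (by linarith)
        have h4 : (T : ℝ) ≤ s + t := by
          have := not_lt.mp hst
          exact_mod_cast this
        have h5 : Real.exp (-(s : ℝ) * z.re + -(t : ℝ) * z.re) ≤ Real.exp (-(T : ℝ) * z.re) := by
          rw [Real.exp_le_exp]
          nlinarith
        calc Real.exp (-(s : ℝ) * z.re + -(t : ℝ) * z.re)
            ≤ Real.exp (-(T : ℝ) * z.re) * 1 := by rw [mul_one]; exact h5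
          _ ≤ Real.exp (-(T : ℝ) * z.re) * ((W.low T * W.w s) * (W.low T * W.w t)) :=
            mul_le_mul_of_nonneg_left h3 (Real.exp_pos _).le
          _ = _ := by ring
      · rw [if_neg ht, mul_zero, norm_zero]
        exact hR
    · rw [if_neg hs, zero_mul, norm_zero]
      exact hR

lemma lam_mul (W : Weight) (T : ℕ) (hT : 0 < T) (z : ℂ) (hz : 0 ≤ z.re) (x y : AA W) :
    ‖lam W T hT z hz x * lam W T hT z hz y - lam W T hT z hz (x * y)‖
      ≤ (W.low T ^ 2 * Real.exp (-(T : ℝ) * z.re)) * (‖x‖ * ‖y‖) := by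
  set C := W.low T ^ 2 * Real.exp (-(T : ℝ) * z.re) with hC
  have h1 : ∀ s, ∀ y : AA W, ‖lam W T hT z hz (dl W s) * lam W T hT z hz y
      - lam W T hT z hz (dl W s * y)‖ ≤ (C * W.w s) * ‖y‖ := by
    intro s y
    have h := op_bound (lam W T hT z hz (dl W s) • lam W T hT z hz
      - (lam W T hT z hz).comp (lm (dl W s))) (C * W.w s) (by
        intro t
        refine (lam_mul_dl W T hT z hz s t).trans (le_of_eq ?_)
        rw [hC]; ring) y
    exact h
  have h := op_bound (lam W T hT z hz y • lam W T hT z hz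
      - (lam W T hT z hz).comp (lm y)) (C * ‖y‖) (by
        intro s
        have h2 := h1 s y
        rw [mul_comm (dl W s) y, mul_comm (lam W T hT z hz (dl W s))] at h2
        refine h2.trans (le_of_eq ?_)
        ring) x
  have e : lam W T hT z hz (x * y) = lam W T hT z hz (y * x) := by rw [mul_comm]
  rw [e, mul_comm (lam W T hT z hz x)]
  refine h.trans (le_of_eq ?_)
  ring

lemma lam_sq_zero (W : Weight) (T : ℕ) (hT : 0 < T) (z : ℂ) (hz : 0 ≤ z.re) (x : AA W)
    (hx : x * x = 0) :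
    ‖lam W T hT z hz x‖ ≤ W.low T * Real.exp (-(T : ℝ) / 2 * z.re) * ‖x‖ := by
  have h := lam_mul W T hT z hz x x
  rw [hx, map_zero, sub_zero, norm_mul] at h
  have hlow := W.low_pos T hT
  have e : W.low T ^ 2 * Real.exp (-(T : ℝ) * z.re) * (‖x‖ * ‖x‖)
      = (W.low T * Real.exp (-(T : ℝ) / 2 * z.re) * ‖x‖) ^ 2 := by
    rw [mul_pow, mul_pow, ← Real.exp_nat_mul]
    have : ((2 : ℕ) : ℝ) * (-(T : ℝ) / 2 * z.re) = -(T : ℝ) * z.re := by push_cast; ring
    rw [this]; ring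
  rw [e, ← sq] at h
  exact le_of_sq_le_sq h (by positivity)

lemma exp_I_ne_one (q : ℚ) (hq : q ≠ 0) : Complex.exp (((q : ℝ) : ℂ) * Complex.I) ≠ 1 := by
  intro h
  rw [Complex.exp_eq_one_iff] at h
  obtain ⟨n, hn⟩ := h
  have h1 : ((q : ℝ) : ℂ) = ((n * (2 * Real.pi) : ℝ) : ℂ) := by
    apply mul_right_cancel₀ Complex.I_ne_zero
    rw [hn]; push_cast; ring
  have h2 : (q : ℝ) = n * (2 * Real.pi) := by exact_mod_cast h1
  have hn0 : n ≠ 0 := by
    rintro rfl
    apply hq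
    have : (q : ℝ) = 0 := by rw [h2]; simp
    exact_mod_cast this
  apply irrational_pi
  refine ⟨q / (2 * n), ?_⟩
  push_cast
  rw [h2]
  have : (n : ℝ) ≠ 0 := by exact_mod_cast hn0
  field_simp

lemma geom_avg (ω : ℂ) (hω : ω ≠ 1) (h1 : ‖ω‖ = 1) :
    Tendsto (fun n : ℕ => (1 / ((n : ℂ) + 1)) * ∑ j ∈ Finset.range (n + 1), ω ^ j) atTop
      (𝓝 0) := by
  rw [tendsto_zero_iff_norm_tendsto_zero]
  have hne : 0 < ‖ω - 1‖ := norm_pos_iff.mpr (sub_ne_zero.mpr hω)
  have hlim : Tendsto (fun n : ℕ => (1 / ((n : ℝ) + 1)) * (2 / ‖ω - 1‖)) atTop (𝓝 0) := by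
    have := (tendsto_one_div_add_atTop_nhds_zero_nat (𝕜 := ℝ)).mul_const (2 / ‖ω - 1‖)
    rw [zero_mul] at this
    exact this
  apply squeeze_zero (fun n => norm_nonneg _) _ hlim
  intro n
  rw [norm_mul]
  have e1 : ‖(1 : ℂ) / ((n : ℂ) + 1)‖ = 1 / ((n : ℝ) + 1) := by
    rw [norm_div, norm_one]
    congr 1
    have : ((n : ℂ) + 1) = (((n : ℝ) + 1 : ℝ) : ℂ) := by push_cast; rfl
    rw [this, Complex.norm_real, Real.norm_eq_abs, abs_of_pos (by positivity)]
  rw [e1]
  apply mul_le_mul_of_nonneg_left _ (by positivity)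
  rw [geom_sum_eq hω, norm_div]
  apply div_le_div_of_nonneg_right _ hne.le
  refine (norm_sub_le _ _).trans ?_
  rw [norm_pow, h1, one_pow, norm_one]
  norm_num

/-- `σ + i j`. -/
noncomputable def zz (σ : ℝ) (j : ℕ) : ℂ := ⟨σ, j⟩

lemma zz_eq (σ : ℝ) (j : ℕ) : zz σ j = (σ : ℂ) + (j : ℂ) * Complex.I := by
  unfold zz
  apply Complex.ext <;> simp

/-- Averages of the truncated Laplace transform along a vertical line. -/
noncomputable def avg (W : Weight) (T : ℕ) (hT : 0 < T) (r : ℚ≥0) (σ : ℝ) (hσ : 0 ≤ σ) (n : ℕ) :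
    AA W →L[ℂ] ℂ :=
  (1 / ((n : ℂ) + 1)) • ∑ j ∈ Finset.range (n + 1),
    Complex.exp (((r : ℝ) : ℂ) * zz σ j) • lam W T hT (zz σ j) hσ

lemma avg_apply (W : Weight) (T : ℕ) (hT : 0 < T) (r : ℚ≥0) (σ : ℝ) (hσ : 0 ≤ σ) (n : ℕ)
    (x : AA W) : avg W T hT r σ hσ n x = (1 / ((n : ℂ) + 1)) * ∑ j ∈ Finset.range (n + 1),
      Complex.exp (((r : ℝ) : ℂ) * zz σ j) * lam W T hT (zz σ j) hσ x := by
  unfold avg
  rw [smul_apply, sum_apply]
  rfl

lemma avg_le (W : Weight) (T : ℕ) (hT : 0 < T) (r : ℚ≥0) (σ : ℝ) (hσ : 0 ≤ σ) (n : ℕ)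
    (x : AA W) (B : ℝ) (hB : ∀ j, ‖lam W T hT (zz σ j) hσ x‖ ≤ B) :
    ‖avg W T hT r σ hσ n x‖ ≤ Real.exp (r * σ) * B := by
  rw [avg_apply, norm_mul]
  have e1 : ‖(1 : ℂ) / ((n : ℂ) + 1)‖ = 1 / ((n : ℝ) + 1) := by
    rw [norm_div, norm_one]
    congr 1
    have : ((n : ℂ) + 1) = (((n : ℝ) + 1 : ℝ) : ℂ) := by push_cast; rfl
    rw [this, Complex.norm_real, Real.norm_eq_abs, abs_of_pos (by positivity)]
  rw [e1]
  have h1 : ‖∑ j ∈ Finset.range (n + 1),
      Complex.exp (((r : ℝ) : ℂ) * zz σ j) * lam W T hT (zz σ j) hσ x‖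
      ≤ ((n : ℝ) + 1) * (Real.exp (r * σ) * B) := by
    refine (norm_sum_le _ _).trans ?_
    have : ∀ j ∈ Finset.range (n + 1),
        ‖Complex.exp (((r : ℝ) : ℂ) * zz σ j) * lam W T hT (zz σ j) hσ x‖
          ≤ Real.exp (r * σ) * B := by
      intro j _
      rw [norm_mul, Complex.norm_exp, Complex.re_ofReal_mul]
      exact mul_le_mul_of_nonneg_left (hB j) (Real.exp_pos _).le
    refine (Finset.sum_le_sum this).trans ?_
    rw [Finset.sum_const, Finset.card_range, nsmul_eq_mul]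
    push_cast
    exact le_rfl
  calc 1 / ((n : ℝ) + 1) * _ ≤ 1 / ((n : ℝ) + 1) * (((n : ℝ) + 1) * (Real.exp (r * σ) * B)) :=
        mul_le_mul_of_nonneg_left h1 (by positivity)
    _ = _ := by field_simp

lemma avg_dl (W : Weight) (T : ℕ) (hT : 0 < T) (r : ℚ≥0) (hr : r < T) (σ : ℝ) (hσ : 0 ≤ σ)
    (s : ℚ≥0) : Tendsto (fun n => avg W T hT r σ hσ n (dl W s)) atTop
      (𝓝 (cf W r (dl W s))) := by
  rw [cf_dl]
  by_cases hs : s < T
  · have e : ∀ n, avg W T hT r σ hσ n (dl W s) =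
        Complex.exp (((r : ℝ) - (s : ℝ) : ℝ) * (σ : ℂ)) *
          ((1 / ((n : ℂ) + 1)) * ∑ j ∈ Finset.range (n + 1),
            (Complex.exp ((((r : ℚ) - (s : ℚ) : ℚ) : ℝ) * Complex.I)) ^ j) := by
      intro n
      have e3 : ∀ j ∈ Finset.range (n + 1),
          Complex.exp (((r : ℝ) : ℂ) * zz σ j) * lam W T hT (zz σ j) hσ (dl W s)
            = Complex.exp (((r : ℝ) - (s : ℝ) : ℝ) * (σ : ℂ)) *
              (Complex.exp ((((r : ℚ) - (s : ℚ) : ℚ) : ℝ) * Complex.I)) ^ j := by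
        intro j _
        rw [lam_dl, if_pos hs, ← Complex.exp_add, ← Complex.exp_nat_mul, ← Complex.exp_add,
          zz_eq]
        congr 1
        push_cast
        ring
      rw [avg_apply, Finset.sum_congr rfl e3, ← Finset.mul_sum]
      ring
    by_cases hsr : s = r
    · rw [if_pos hsr]
      subst hsr
      have e2 : ∀ n : ℕ, avg W T hT s σ hσ n (dl W s) = 1 := by
        intro n
        rw [e n]
        have hn : ((n : ℂ) + 1) ≠ 0 := by exact_mod_cast Nat.succ_ne_zero n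
        simp only [sub_self, Rat.cast_zero, Complex.ofReal_zero, zero_mul, Complex.exp_zero,
          one_pow, Finset.sum_const, Finset.card_range, nsmul_eq_mul, mul_one, one_mul]
        push_cast
        field_simp
      simp only [e2]
      exact tendsto_const_nhds
    · rw [if_neg hsr]
      have hq : ((r : ℚ) - (s : ℚ) : ℚ) ≠ 0 := by
        rw [sub_ne_zero]
        intro h
        exact hsr (by exact_mod_cast h.symm)
      have h1 := geom_avg (Complex.exp ((((r : ℚ) - (s : ℚ) : ℚ) : ℝ) * Complex.I))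
        (exp_I_ne_one _ hq) (by rw [Complex.norm_exp_ofReal_mul_I])
      have h2 := h1.const_mul (Complex.exp (((r : ℝ) - (s : ℝ) : ℝ) * (σ : ℂ)))
      rw [mul_zero] at h2
      exact h2.congr fun n => (e n).symm
  · have hsr : s ≠ r := by
      rintro rfl
      exact hs hr
    rw [if_neg hsr]
    have e2 : ∀ n, avg W T hT r σ hσ n (dl W s) = 0 := by
      intro n
      rw [avg_apply, Finset.sum_eq_zero, mul_zero]
      intro j _
      rw [lam_dl, if_neg hs, mul_zero]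
    simp only [e2]
    exact tendsto_const_nhds

/-- `AA W` has no nonzero element of square zero. -/
theorem eq_zero_of_sq (W : Weight) (x : AA W) (hx : x * x = 0) : x = 0 := by
  apply eq_zero_of_cf
  intro r
  obtain ⟨T, hTr⟩ := exists_nat_gt (2 * r)
  have hT : 0 < T := by
    have : (0 : ℚ≥0) < T := lt_of_le_of_lt (by positivity) hTr
    exact_mod_cast this
  have hrT : r < T := lt_of_le_of_lt (by rw [two_mul]; exact le_self_add) hTr
  have hlow := W.low_pos T hT
  have key : ∀ m : ℕ, ‖cf W r x‖ ≤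
      (W.low T * ‖x‖) * Real.exp (-((T : ℝ) / 2 - r)) ^ m := by
    intro m
    have hσ : (0 : ℝ) ≤ (m : ℝ) := by positivity
    have h1 := tendsto_of_dl (fun n => avg W T hT r m hσ n) (cf W r)
      (Real.exp (r * m) * W.low T) (by
        intro n y
        have := avg_le W T hT r m hσ n y (W.low T * ‖y‖)
          (fun j => lam_le W T hT (zz m j) hσ y)
        refine this.trans (le_of_eq ?_)
        ring) (fun s => avg_dl W T hT r hrT m hσ s) x
    have h2 := h1.norm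
    apply le_of_tendsto' h2
    intro n
    have h3 := avg_le W T hT r m hσ n x
      (W.low T * Real.exp (-(T : ℝ) / 2 * m) * ‖x‖)
      (fun j => lam_sq_zero W T hT (zz m j) hσ x hx)
    refine h3.trans (le_of_eq ?_)
    rw [← Real.exp_nat_mul]
    have e : Real.exp (r * m) * (W.low T * Real.exp (-(T : ℝ) / 2 * m) * ‖x‖)
        = (W.low T * ‖x‖) * (Real.exp (r * m) * Real.exp (-(T : ℝ) / 2 * m)) := by ring
    rw [e, ← Real.exp_add]
    congr 2
    ring
  rw [← norm_eq_zero]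
  apply le_antisymm _ (norm_nonneg _)
  have hTr' : (2 : ℝ) * r < T := by exact_mod_cast hTr
  have hlim : Tendsto (fun m : ℕ => (W.low T * ‖x‖) * Real.exp (-((T : ℝ) / 2 - r)) ^ m) atTop
      (𝓝 ((W.low T * ‖x‖) * 0)) := by
    apply Tendsto.const_mul
    apply tendsto_pow_atTop_nhds_zero_of_lt_one (Real.exp_pos _).le
    rw [Real.exp_lt_one_iff]
    linarith
  rw [mul_zero] at hlim
  exact ge_of_tendsto' hlim key

end Pool.Agent.RadSemi
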