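import Mathlib
import Pool.Agent.RadSemi.Red

set_option autoImplicit false

namespace Pool.Agent.RadSemi

open Filter Topology

section Opx

variable {W : Weight} {V : Type*} [NormedAddCommGroup V] [NormedSpace ℂ V]

/-- The linear map on `A0 W` with prescribed values on monomials. -/
noncomputable def opx0 (W : Weight) (v : ℚ≥0 → V) : A0 W →ₗ[ℂ] V where
  toFun := fun x => Finsupp.linearCombination ℂ v (co x)
  map_add' := by
    intro x y
    rw [co_add, map_add]
  map_smul' := by
    intro c x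
    rw [co_smul, map_smul, RingHom.id_apply]

lemma opx0_mon (v : ℚ≥0 → V) (s : ℚ≥0) (c : ℂ) : opx0 W v (mon W s c) = c • v s := by
  show Finsupp.linearCombination ℂ v (co (mon W s c)) = _
  rw [co_mon, Finsupp.linearCombination_single]

lemma opx0_bound (v : ℚ≥0 → V) (C : ℝ) (hv : ∀ s, ‖v s‖ ≤ C * W.w s) (x : A0 W) :
    ‖opx0 W v x‖ ≤ C * ‖x‖ :=
  norm_le_wnorm W (opx0 W v) C (fun s => by
    have := opx0_mon (W := W) v s 1
    rw [one_smul] at this
    exact (le_of_eq (congrArg norm this)).trans (hv s)) x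

/-- The operator on `AA W` with prescribed values on monomials. -/
noncomputable def opx [CompleteSpace V] (W : Weight) (v : ℚ≥0 → V) (C : ℝ)
    (hv : ∀ s, ‖v s‖ ≤ C * W.w s) : AA W →L[ℂ] V :=
  ((opx0 W v).mkContinuous C (opx0_bound v C hv)).extend
    (UniformSpace.Completion.toComplL : A0 W →L[ℂ] AA W)

lemma opx_dl [CompleteSpace V] (v : ℚ≥0 → V) (C : ℝ) (hv : ∀ s, ‖v s‖ ≤ C * W.w s) (s : ℚ≥0) :
    opx W v C hv (dl W s) = v s := by
  have h := ContinuousLinearMap.extend_eq ((opx0 W v).mkContinuous C (opx0_bound v C hv))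
    (e := (UniformSpace.Completion.toComplL : A0 W →L[ℂ] AA W))
    (by rw [UniformSpace.Completion.coe_toComplL]; exact UniformSpace.Completion.denseRange_coe)
    (by rw [UniformSpace.Completion.coe_toComplL]
        exact UniformSpace.Completion.isUniformInducing_coe _) (mon W s 1)
  have h2 : opx W v C hv (dl W s) = opx0 W v (mon W s 1) := h
  rw [h2, opx0_mon, one_smul]

end Opx

/-- Two continuous bilinear expressions which agree on monomials agree. -/
lemma ext_dl2 {W : Weight} {V : Type*} [NormedAddCommGroup V] [NormedSpace ℂ V]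
    (B B' : AA W → AA W → V)
    (hR : ∀ x, ∃ L : AA W →L[ℂ] V, ∀ y, L y = B x y)
    (hL : ∀ y, ∃ L : AA W →L[ℂ] V, ∀ x, L x = B x y)
    (hR' : ∀ x, ∃ L : AA W →L[ℂ] V, ∀ y, L y = B' x y)
    (hL' : ∀ y, ∃ L : AA W →L[ℂ] V, ∀ x, L x = B' x y)
    (h : ∀ s t, B (dl W s) (dl W t) = B' (dl W s) (dl W t)) (x y : AA W) : B x y = B' x y := by
  have h1 : ∀ s, ∀ y, B (dl W s) y = B' (dl W s) y := by
    intro s y
    obtain ⟨L, hL1⟩ := hR (dl W s)
    obtain ⟨L', hL1'⟩ := hR' (dl W s)
    rw [← hL1, ← hL1']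
    apply ext_dl
    intro t
    rw [hL1, hL1', h]
  obtain ⟨L, hL1⟩ := hL y
  obtain ⟨L', hL1'⟩ := hL' y
  rw [← hL1, ← hL1']
  apply ext_dl
  intro s
  rw [hL1, hL1', h1]

/-- The automorphism `δ_s ↦ e^{-s} δ_s`. -/
noncomputable def tau (W : Weight) : AA W →L[ℂ] AA W :=
  opx W (fun s => ((Real.exp (-(s : ℝ)) : ℝ) : ℂ) • dl W s) 1 (by
    intro s
    rw [norm_smul, norm_dl, Complex.norm_real, Real.norm_eq_abs, abs_of_pos (Real.exp_pos _)]
    apply mul_le_mul_of_nonneg_right _ (W.nonneg s)
    rw [Real.exp_le_one_iff]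
    have : (0 : ℝ) ≤ s := by positivity
    linarith)

lemma tau_dl (W : Weight) (s : ℚ≥0) :
    tau W (dl W s) = ((Real.exp (-(s : ℝ)) : ℝ) : ℂ) • dl W s := opx_dl _ _ _ s

/-- The twisted derivation `δ_s ↦ s e^{-s} δ_s`. -/
noncomputable def dd (W : Weight) : AA W →L[ℂ] AA W :=
  opx W (fun s => (((s : ℝ) * Real.exp (-(s : ℝ)) : ℝ) : ℂ) • dl W s) 1 (by
    intro s
    have h0 : (0 : ℝ) ≤ s := by positivity
    rw [norm_smul, norm_dl, Complex.norm_real, Real.norm_eq_abs, abs_of_nonneg (by positivity)]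
    apply mul_le_mul_of_nonneg_right _ (W.nonneg s)
    rw [Real.exp_neg, mul_inv_le_iff₀ (Real.exp_pos _), one_mul]
    have := Real.add_one_le_exp (s : ℝ)
    linarith)

lemma dd_dl (W : Weight) (s : ℚ≥0) :
    dd W (dl W s) = (((s : ℝ) * Real.exp (-(s : ℝ)) : ℝ) : ℂ) • dl W s := opx_dl _ _ _ s

lemma tau_mul (W : Weight) (x y : AA W) : tau W (x * y) = tau W x * tau W y := by
  apply ext_dl2 (W := W) (fun x y => tau W (x * y)) (fun x y => tau W x * tau W y)
  · intro x
    exact ⟨(tau W).comp (lm x), fun y => rfl⟩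
  · intro y
    exact ⟨(tau W).comp (lm y), fun x => by
      show tau W (y * x) = tau W (x * y)
      rw [mul_comm]⟩
  · intro x
    exact ⟨(lm (tau W x)).comp (tau W), fun y => rfl⟩
  · intro y
    exact ⟨(lm (tau W y)).comp (tau W), fun x => by
      show tau W y * tau W x = tau W x * tau W y
      rw [mul_comm]⟩
  · intro s t
    show tau W (dl W s * dl W t) = tau W (dl W s) * tau W (dl W t)
    rw [← dl_add, tau_dl, tau_dl, tau_dl, smul_mul_smul_comm, ← dl_add]
    congr 1
    rw [← Complex.ofReal_mul, ← Real.exp_add]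
    congr 2
    push_cast
    ring

lemma dd_mul (W : Weight) (x y : AA W) :
    dd W (x * y) = dd W x * tau W y + tau W x * dd W y := by
  apply ext_dl2 (W := W) (fun x y => dd W (x * y)) (fun x y => dd W x * tau W y + tau W x * dd W y)
  · intro x
    exact ⟨(dd W).comp (lm x), fun y => rfl⟩
  · intro y
    exact ⟨(dd W).comp (lm y), fun x => by
      show dd W (y * x) = dd W (x * y)
      rw [mul_comm]⟩
  · intro x
    exact ⟨(lm (dd W x)).comp (tau W) + (lm (tau W x)).comp (dd W), fun y => rfl⟩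
  · intro y
    exact ⟨(lm (tau W y)).comp (dd W) + (lm (dd W y)).comp (tau W), fun x => by
      show tau W y * dd W x + dd W y * tau W x = dd W x * tau W y + tau W x * dd W y
      ring⟩
  · intro s t
    show dd W (dl W s * dl W t) = dd W (dl W s) * tau W (dl W t) + tau W (dl W s) * dd W (dl W t)
    rw [← dl_add, dd_dl, dd_dl, tau_dl, tau_dl, dd_dl, smul_mul_smul_comm, smul_mul_smul_comm,
      ← dl_add, ← add_smul]
    congr 1
    rw [← Complex.ofReal_mul, ← Complex.ofReal_mul, ← Complex.ofReal_add]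
    congr 1
    push_cast
    rw [neg_add, Real.exp_add]
    ring

lemma tau_dd_zero (W : Weight) (x y : AA W) (h : x * y = 0) : tau W x * dd W y = 0 := by
  apply eq_zero_of_sq
  have h1 := dd_mul W x y
  rw [h, map_zero] at h1
  have h2 : tau W x * dd W y = -(dd W x * tau W y) := by
    rw [eq_neg_iff_add_eq_zero, add_comm]; exact h1.symm
  have h3 := tau_mul W x y
  rw [h, map_zero] at h3
  calc tau W x * dd W y * (tau W x * dd W y)
      = tau W x * dd W y * -(dd W x * tau W y) := by rw [← h2]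
    _ = -(dd W x * dd W y) * (tau W x * tau W y) := by ring
    _ = 0 := by rw [← h3, mul_zero]

lemma tau_dd_pow_zero (W : Weight) (x y : AA W) (h : x * y = 0) (n : ℕ) :
    (tau W ^ n) x * (dd W ^ n) y = 0 := by
  induction n with
  | zero => exact h
  | succ n ih =>
    have e1 : (tau W ^ (n + 1)) x = tau W ((tau W ^ n) x) := by rw [pow_succ']; rfl
    have e2 : (dd W ^ (n + 1)) y = dd W ((dd W ^ n) y) := by rw [pow_succ']; rfl
    rw [e1, e2]
    exact tau_dd_zero W _ _ ih

lemma tau_pow_dl (W : Weight) (s : ℚ≥0) (n : ℕ) :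
    (tau W ^ n) (dl W s) = ((Real.exp (-(s : ℝ)) : ℝ) : ℂ) ^ n • dl W s := by
  induction n with
  | zero => simp
  | succ n ih =>
    have e1 : (tau W ^ (n + 1)) (dl W s) = tau W ((tau W ^ n) (dl W s)) := by rw [pow_succ']; rfl
    rw [e1, ih, map_smul, tau_dl, smul_smul, pow_succ]

lemma dd_pow_dl (W : Weight) (s : ℚ≥0) (n : ℕ) :
    (dd W ^ n) (dl W s) = (((s : ℝ) * Real.exp (-(s : ℝ)) : ℝ) : ℂ) ^ n • dl W s := by
  induction n with
  | zero => simp
  | succ n ih =>
    have e1 : (dd W ^ (n + 1)) (dl W s) = dd W ((dd W ^ n) (dl W s)) := by rw [pow_succ']; rfl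
    rw [e1, ih, map_smul, dd_dl, smul_smul, pow_succ]

/-- The weighted coefficient form attached to a polynomial. -/
noncomputable def bil (W : Weight) (P : Polynomial ℂ) (r : ℚ≥0) (x y : AA W) : ℂ :=
  ∑ n ∈ Finset.range (P.natDegree + 1),
    (P.coeff n * ((Real.exp r : ℝ) : ℂ) ^ n) * cf W r ((tau W ^ n) x * (dd W ^ n) y)

/-- `bil` as a functional of the second variable. -/
noncomputable def bilR (W : Weight) (P : Polynomial ℂ) (r : ℚ≥0) (x : AA W) : AA W →L[ℂ] ℂ :=
  ∑ n ∈ Finset.range (P.natDegree + 1),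
    (P.coeff n * ((Real.exp r : ℝ) : ℂ) ^ n) • (cf W r).comp ((lm ((tau W ^ n) x)).comp (dd W ^ n))

lemma bilR_apply (W : Weight) (P : Polynomial ℂ) (r : ℚ≥0) (x y : AA W) :
    bilR W P r x y = bil W P r x y := by
  unfold bilR
  rw [sum_apply]
  rfl

/-- `bil` as a functional of the first variable. -/
noncomputable def bilL (W : Weight) (P : Polynomial ℂ) (r : ℚ≥0) (y : AA W) : AA W →L[ℂ] ℂ :=
  ∑ n ∈ Finset.range (P.natDegree + 1),
    (P.coeff n * ((Real.exp r : ℝ) : ℂ) ^ n) • (cf W r).comp ((lm ((dd W ^ n) y)).comp (tau W ^ n))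

lemma bilL_apply (W : Weight) (P : Polynomial ℂ) (r : ℚ≥0) (x y : AA W) :
    bilL W P r y x = bil W P r x y := by
  unfold bilL
  rw [sum_apply]
  unfold bil
  apply Finset.sum_congr rfl
  intro n _
  show _ * cf W r ((dd W ^ n) y * (tau W ^ n) x) = _
  rw [mul_comm ((dd W ^ n) y)]

lemma bil_eq_zero (W : Weight) (P : Polynomial ℂ) (r : ℚ≥0) (x y : AA W) (h : x * y = 0) :
    bil W P r x y = 0 := by
  unfold bil
  apply Finset.sum_eq_zero
  intro n _
  rw [tau_dd_pow_zero W x y h, map_zero, mul_zero]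

lemma bil_dl (W : Weight) (P : Polynomial ℂ) (r s t : ℚ≥0) :
    bil W P r (dl W s) (dl W t) = if s + t = r then P.eval (((t : ℝ) : ℂ)) else 0 := by
  unfold bil
  have e : ∀ n, cf W r ((tau W ^ n) (dl W s) * (dd W ^ n) (dl W t))
      = (((Real.exp (-(s : ℝ)) : ℝ) : ℂ) ^ n * (((t : ℝ) * Real.exp (-(t : ℝ)) : ℝ) : ℂ) ^ n) *
        (if s + t = r then 1 else 0) := by
    intro n
    rw [tau_pow_dl, dd_pow_dl, smul_mul_smul_comm, ← dl_add, map_smul, cf_dl, smul_eq_mul]
  by_cases hst : s + t = r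
  · rw [if_pos hst, Polynomial.eval_eq_sum_range]
    apply Finset.sum_congr rfl
    intro n _
    rw [e, if_pos hst, mul_one, mul_assoc, ← mul_pow, ← mul_pow]
    congr 2
    rw [← Complex.ofReal_mul, ← Complex.ofReal_mul]
    congr 1
    have hr : (r : ℝ) = s + t := by rw [← hst]; push_cast; rfl
    rw [hr]
    calc Real.exp ((s : ℝ) + t) * (Real.exp (-(s : ℝ)) * ((t : ℝ) * Real.exp (-(t : ℝ))))
        = t * (Real.exp ((s : ℝ) + t) * Real.exp (-(s : ℝ)) * Real.exp (-(t : ℝ))) := by ring
      _ = t * 1 := by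
        rw [← Real.exp_add, ← Real.exp_add]
        have : (s : ℝ) + t + -(s : ℝ) + -(t : ℝ) = 0 := by ring
        rw [this, Real.exp_zero]
      _ = t := mul_one _
  · rw [if_neg hst]
    apply Finset.sum_eq_zero
    intro n _
    rw [e, if_neg hst, mul_zero, mul_zero]

lemma bil_dl_le (W : Weight) (P : Polynomial ℂ) (r : ℚ≥0) (T : ℕ) (hT : r < T)
    (hP : ∀ t : ℚ≥0, t ≤ r → ‖P.eval (((t : ℝ) : ℂ))‖ ≤ 1) (s t : ℚ≥0) :
    ‖bil W P r (dl W s) (dl W t)‖ ≤ W.low T ^ 2 * (W.w s * W.w t) := by
  have hT0 : 0 < T := by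
    have : (0 : ℚ≥0) < T := lt_of_le_of_lt (by positivity) hT
    exact_mod_cast this
  have hlow := W.low_pos T hT0
  have hws := W.pos s
  have hwt := W.pos t
  rw [bil_dl]
  by_cases hst : s + t = r
  · rw [if_pos hst]
    have hs : s ≤ r := by rw [← hst]; exact le_self_add
    have ht : t ≤ r := by rw [← hst]; exact le_add_self
    refine (hP t ht).trans ?_
    have h1 := W.low_spec T s (lt_of_le_of_lt hs hT)
    have h2 := W.low_spec T t (lt_of_le_of_lt ht hT)
    calc (1 : ℝ) = 1 * 1 := by ring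
      _ ≤ (W.low T * W.w s) * (W.low T * W.w t) := mul_le_mul h1 h2 zero_le_one (by linarith)
      _ = _ := by ring
  · rw [if_neg hst, norm_zero]
    positivity

/-- `AA W` is an integral domain. -/
theorem eq_zero_or_of_mul (W : Weight) (x y : AA W) (h : x * y = 0) : x = 0 ∨ y = 0 := by
  -- products of coefficients vanish
  have key : ∀ s0 t0 : ℚ≥0, cf W s0 x * cf W t0 y = 0 := by
    intro s0 t0
    set r := s0 + t0 with hr
    obtain ⟨T, hT⟩ := exists_nat_gt r
    set R : ℝ := (r : ℝ) + 1 with hR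
    have hr0 : (0 : ℝ) ≤ r := by positivity
    have hRpos : 0 < R := by positivity
    set Q : Polynomial ℂ :=
      1 - (Polynomial.C (((1 / R : ℝ) : ℂ)) * (Polynomial.X - Polynomial.C ((t0 : ℝ) : ℂ))) ^ 2
      with hQ
    have hQe : ∀ t : ℚ≥0, Q.eval ((t : ℝ) : ℂ) = ((1 - (1 / R * ((t : ℝ) - t0)) ^ 2 : ℝ) : ℂ) := by
      intro t
      rw [hQ]
      simp only [Polynomial.eval_sub, Polynomial.eval_one, Polynomial.eval_pow,
        Polynomial.eval_mul, Polynomial.eval_C, Polynomial.eval_X]
      push_cast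
      ring
    have hbase : ∀ t : ℚ≥0, t ≤ r → (1 / R * ((t : ℝ) - t0)) ^ 2 < 1 := by
      intro t ht
      have ht' : (t : ℝ) ≤ r := by exact_mod_cast ht
      have ht0 : (0 : ℝ) ≤ t := by positivity
      have ht00 : (0 : ℝ) ≤ t0 := by positivity
      have ht0r : (t0 : ℝ) ≤ r := by
        have : t0 ≤ r := by rw [hr]; exact le_add_self
        exact_mod_cast this
      rw [sq_lt_one_iff_abs_lt_one, abs_mul, abs_of_pos (by positivity : 0 < 1 / R),
        one_div, inv_mul_lt_iff₀ hRpos, mul_one, abs_lt]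
      constructor <;> linarith
    have hQle : ∀ t : ℚ≥0, t ≤ r → ‖Q.eval ((t : ℝ) : ℂ)‖ ≤ 1 := by
      intro t ht
      have h1 := hbase t ht
      have h2 := sq_nonneg (1 / R * ((t : ℝ) - t0))
      rw [hQe, Complex.norm_real, Real.norm_eq_abs, abs_le]
      constructor <;> linarith
    have hPle : ∀ k : ℕ, ∀ t : ℚ≥0, t ≤ r → ‖(Q ^ k).eval ((t : ℝ) : ℂ)‖ ≤ 1 := by
      intro k t ht
      rw [Polynomial.eval_pow, norm_pow]
      exact pow_le_one₀ (norm_nonneg _) (hQle t ht)
    have hlimt : ∀ t : ℚ≥0, t ≤ r →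
        Tendsto (fun k : ℕ => (Q ^ k).eval ((t : ℝ) : ℂ)) atTop (𝓝 (if t = t0 then 1 else 0)) := by
      intro t ht
      simp only [Polynomial.eval_pow]
      by_cases htt : t = t0
      · rw [if_pos htt]
        have : Q.eval ((t : ℝ) : ℂ) = 1 := by
          rw [hQe, htt]; simp
        simp only [this, one_pow]
        exact tendsto_const_nhds
      · rw [if_neg htt]
        apply tendsto_pow_atTop_nhds_zero_of_norm_lt_one
        have h1 := hbase t ht
        have h2 : 0 < (1 / R * ((t : ℝ) - t0)) ^ 2 := by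
          have h3 : (t : ℝ) - t0 ≠ 0 := by
            rw [sub_ne_zero]
            intro h4
            exact htt (by exact_mod_cast h4)
          positivity
        rw [hQe, Complex.norm_real, Real.norm_eq_abs, abs_lt]
        constructor <;> linarith
    -- bounds of the forms
    have hb1 : ∀ k s, ∀ y : AA W, ‖bil W (Q ^ k) r (dl W s) y‖
        ≤ (W.low T ^ 2 * W.w s) * ‖y‖ := by
      intro k s y
      rw [← bilR_apply]
      apply op_bound
      intro t
      rw [bilR_apply]
      refine (bil_dl_le W (Q ^ k) r T hT (hPle k) s t).trans (le_of_eq ?_)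
      ring
    have hb2 : ∀ k, ∀ x : AA W, ‖bil W (Q ^ k) r x y‖ ≤ (W.low T ^ 2 * ‖y‖) * ‖x‖ := by
      intro k x
      rw [← bilL_apply]
      apply op_bound
      intro s
      rw [bilL_apply]
      refine (hb1 k s y).trans (le_of_eq ?_)
      ring
    -- limits
    have hl1 : ∀ s, Tendsto (fun k : ℕ => bil W (Q ^ k) r (dl W s) y) atTop
        (𝓝 (cf W s0 (dl W s) * cf W t0 y)) := by
      intro s
      have h1 := tendsto_of_dl (fun k => bilR W (Q ^ k) r (dl W s))
        (cf W s0 (dl W s) • cf W t0) (W.low T ^ 2 * W.w s) (by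
          intro k y
          rw [bilR_apply]
          exact hb1 k s y) (by
          intro t
          simp only [bilR_apply, bil_dl]
          show Tendsto _ atTop (𝓝 (cf W s0 (dl W s) * cf W t0 (dl W t)))
          rw [cf_dl, cf_dl]
          by_cases hst : s + t = r
          · simp only [if_pos hst]
            have ht : t ≤ r := by rw [← hst]; exact le_add_self
            have h2 := hlimt t ht
            by_cases htt : t = t0
            · have hs : s = s0 := by
                rw [htt, hr] at hst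
                exact add_right_cancel hst
              rw [if_pos htt] at h2
              rw [if_pos hs, if_pos htt, mul_one]
              exact h2
            · rw [if_neg htt] at h2
              rw [if_neg htt, mul_zero]
              exact h2
          · simp only [if_neg hst]
            have h3 : ((if s = s0 then (1 : ℂ) else 0) * if t = t0 then 1 else 0) = 0 := by
              by_cases hs : s = s0
              · by_cases htt : t = t0
                · exact absurd (by rw [hs, htt]) hst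
                · rw [if_neg htt, mul_zero]
              · rw [if_neg hs, zero_mul]
            rw [h3]
            exact tendsto_const_nhds) y
      simp only [bilR_apply] at h1
      exact h1
    have hl2 := tendsto_of_dl (fun k => bilL W (Q ^ k) r y) (cf W t0 y • cf W s0)
      (W.low T ^ 2 * ‖y‖) (by
        intro k x
        rw [bilL_apply]
        exact hb2 k x) (by
        intro s
        simp only [bilL_apply]
        show Tendsto _ atTop (𝓝 (cf W t0 y * cf W s0 (dl W s)))
        rw [mul_comm (cf W t0 y)]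
        exact hl1 s) x
    simp only [bilL_apply] at hl2
    have h5 : ∀ k : ℕ, bil W (Q ^ k) r x y = 0 := fun k => bil_eq_zero W _ r x y h
    simp only [h5] at hl2
    have h6 : cf W t0 y * cf W s0 x = 0 := (tendsto_nhds_unique hl2 tendsto_const_nhds)
    rw [mul_comm]
    exact h6
  by_cases hy : ∃ t0, cf W t0 y ≠ 0
  · left
    obtain ⟨t0, ht0⟩ := hy
    apply eq_zero_of_cf
    intro s
    rcases mul_eq_zero.mp (key s t0) with h1 | h1
    · exact h1
    · exact absurd h1 ht0
  · right
    push Not at hy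
    exact eq_zero_of_cf W y hy

end Pool.Agent.RadSemi
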