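import Mathlib
import Pool.Agent.MP3d411c.NoSemi
import Pool.Agent.RadSemi.Alg

set_option autoImplicit false

namespace Pool.Agent.RadSemi

open Filter Topology
open scoped Nat
open Pool.Agent.MP3d411c (conv conv_add_left conv_smul_left conv_add_right conv_smul_right
  stab lev lev_spec lev_le_iff lev_add lev_zero)

/-- Truncated convolution as a continuous linear map in the second variable. -/
noncomputable def convR {M : ℕ} (u : Fin M → ℂ) : (Fin M → ℂ) →L[ℂ] (Fin M → ℂ) :=
  LinearMap.toContinuousLinearMap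
    { toFun := fun v => conv u v
      map_add' := fun v v' => conv_add_right u v v'
      map_smul' := fun c v => conv_smul_right c u v }

lemma convR_apply {M : ℕ} (u v : Fin M → ℂ) : convR u v = conv u v := rfl

/-- Truncated convolution as a continuous linear map in the first variable. -/
noncomputable def convL {M : ℕ} (v : Fin M → ℂ) : (Fin M → ℂ) →L[ℂ] (Fin M → ℂ) :=
  LinearMap.toContinuousLinearMap
    { toFun := fun u => conv u v
      map_add' := fun u u' => conv_add_left u u' v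
      map_smul' := fun c u => conv_smul_left c u v }

lemma convL_apply {M : ℕ} (u v : Fin M → ℂ) : convL v u = conv u v := rfl

/-- The coefficients at `0, 1/N, …, (M-1)/N`. -/
noncomputable def lvl (W : Weight) (N M : ℕ) : AA W →L[ℂ] (Fin M → ℂ) :=
  ContinuousLinearMap.pi fun j => cf W (((j : ℕ) : ℚ≥0) / N)

lemma lvl_apply (W : Weight) (N M : ℕ) (x : AA W) (j : Fin M) :
    lvl W N M x j = cf W (((j : ℕ) : ℚ≥0) / N) x := rfl

lemma lvl_dl (W : Weight) (N M : ℕ) (hN : 0 < N) (s : ℚ≥0) (j : Fin M) :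
    lvl W N M (dl W s) j = if s * N = (j : ℕ) then 1 else 0 := by
  rw [lvl_apply, cf_dl]
  have hN' : (N : ℚ≥0) ≠ 0 := by exact_mod_cast hN.ne'
  congr 1
  rw [eq_div_iff hN']

lemma conv_dl (W : Weight) (N M : ℕ) (hN : 0 < N) (s t : ℚ≥0) (j : Fin M) :
    conv (lvl W N M (dl W s)) (lvl W N M (dl W t)) j =
      ∑ p ∈ Finset.univ.filter (fun p : Fin M × Fin M => (p.1 : ℕ) + (p.2 : ℕ) = (j : ℕ)),
        (if s * N = ((p.1 : ℕ) : ℚ≥0) ∧ t * N = ((p.2 : ℕ) : ℚ≥0) then (1 : ℂ) else 0) := by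
  unfold conv
  apply Finset.sum_congr rfl
  intro p _
  rw [lvl_dl W N M hN, lvl_dl W N M hN]
  split_ifs <;> simp_all

lemma defect_dl (W : Weight) (N M : ℕ) (hN : 0 < N) (B : ℝ) (hB : 0 < B)
    (hBw : ∀ s : ℚ≥0, s * N < M → (¬ ∃ m : ℕ, s * N = m) → B ≤ W.w s) (s t : ℚ≥0) :
    ‖conv (lvl W N M (dl W s)) (lvl W N M (dl W t)) - lvl W N M (dl W s * dl W t)‖
      ≤ W.w s * W.w t / B ^ 2 := by
  have hR : 0 ≤ W.w s * W.w t / B ^ 2 :=
    div_nonneg (mul_nonneg (W.nonneg s) (W.nonneg t)) (by positivity)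
  rw [pi_norm_le_iff_of_nonneg hR]
  intro j
  rw [Pi.sub_apply, conv_dl W N M hN, ← dl_add, lvl_dl W N M hN]
  by_cases hs : ∃ p : ℕ, s * N = p
  · by_cases ht : ∃ q : ℕ, t * N = q
    · -- both are at level N
      obtain ⟨p, hp⟩ := hs
      obtain ⟨q, hq⟩ := ht
      have hcast : (s + t) * N = ((p + q : ℕ) : ℚ≥0) := by
        rw [add_mul, hp, hq]; push_cast; ring
      rw [hcast]
      by_cases hpq : p + q = (j : ℕ)
      · have hpN : p < M := by have := j.2; omega
        have hqN : q < M := by have := j.2; omega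
        rw [Finset.sum_eq_single (⟨p, hpN⟩, ⟨q, hqN⟩)]
        · rw [if_pos ⟨hp, hq⟩, if_pos (by exact_mod_cast hpq)]
          simpa using hR
        · rintro ⟨p', q'⟩ _ hne
          rw [if_neg]
          rintro ⟨h1, h2⟩
          apply hne
          rw [hp] at h1
          rw [hq] at h2
          have h1' : p = (p' : ℕ) := by exact_mod_cast h1
          have h2' : q = (q' : ℕ) := by exact_mod_cast h2
          ext <;> simp [h1', h2']
        · intro h
          exact absurd (by simpa using hpq) h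
      · rw [Finset.sum_eq_zero, if_neg]
        · simpa using hR
        · intro h
          apply hpq
          exact_mod_cast h
        · rintro ⟨p', q'⟩ hpq'
          rw [if_neg]
          rintro ⟨h1, h2⟩
          rw [hp] at h1
          rw [hq] at h2
          have h1' : p = (p' : ℕ) := by exact_mod_cast h1
          have h2' : q = (q' : ℕ) := by exact_mod_cast h2
          simp only [Finset.mem_filter, Finset.mem_univ, true_and] at hpq'
          apply hpq
          rw [h1', h2']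
          exact hpq'
    · rw [Finset.sum_eq_zero, if_neg]
      · simpa using hR
      · intro h
        obtain ⟨p, hp⟩ := hs
        apply ht
        rw [add_mul, hp] at h
        have hle : p ≤ (j : ℕ) := by
          have : (p : ℚ≥0) ≤ (j : ℕ) := by rw [← h]; exact le_self_add
          exact_mod_cast this
        refine ⟨(j : ℕ) - p, ?_⟩
        have : (p : ℚ≥0) + t * N = p + ((j : ℕ) - p : ℕ) := by
          rw [h]
          have : p + ((j : ℕ) - p) = (j : ℕ) := by omega
          exact_mod_cast this.symm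
        exact add_left_cancel this
      · rintro ⟨p', q'⟩ _
        rw [if_neg]
        rintro ⟨h1, h2⟩
        exact ht ⟨_, h2⟩
  · by_cases ht : ∃ q : ℕ, t * N = q
    · rw [Finset.sum_eq_zero, if_neg]
      · simpa using hR
      · intro h
        obtain ⟨q, hq⟩ := ht
        apply hs
        rw [add_mul, hq] at h
        have hle : q ≤ (j : ℕ) := by
          have : (q : ℚ≥0) ≤ (j : ℕ) := by rw [← h]; exact le_add_self
          exact_mod_cast this
        refine ⟨(j : ℕ) - q, ?_⟩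
        have : s * N + (q : ℚ≥0) = ((j : ℕ) - q : ℕ) + q := by
          rw [h]
          have : ((j : ℕ) - q) + q = (j : ℕ) := by omega
          exact_mod_cast this.symm
        exact add_right_cancel this
      · rintro ⟨p', q'⟩ _
        rw [if_neg]
        rintro ⟨h1, h2⟩
        exact hs ⟨_, h1⟩
    · rw [Finset.sum_eq_zero]
      · by_cases h : (s + t) * N = ((j : ℕ) : ℚ≥0)
        · rw [if_pos h, zero_sub, norm_neg, norm_one]
          have hst : (s + t) * N < M := by
            rw [h]; exact_mod_cast j.2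
          have hs1 : s * N < M := lt_of_le_of_lt (by gcongr; exact le_self_add) hst
          have ht1 : t * N < M := lt_of_le_of_lt (by gcongr; exact le_add_self) hst
          rw [le_div_iff₀ (by positivity), one_mul, sq]
          exact mul_le_mul (hBw s hs1 hs) (hBw t ht1 ht) hB.le (W.nonneg s)
        · rw [if_neg h]
          simpa using hR
      · rintro ⟨p', q'⟩ _
        rw [if_neg]
        rintro ⟨h1, h2⟩
        exact hs ⟨_, h1⟩

/-- The multiplicativity defect of level `N` truncation is small. -/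
theorem lvl_mul_err (W : Weight) (N M : ℕ) (hN : 0 < N) (B : ℝ) (hB : 0 < B)
    (hBw : ∀ s : ℚ≥0, s * N < M → (¬ ∃ m : ℕ, s * N = m) → B ≤ W.w s) (x y : AA W) :
    ‖conv (lvl W N M x) (lvl W N M y) - lvl W N M (x * y)‖ ≤ ‖x‖ * ‖y‖ / B ^ 2 := by
  have h1 : ∀ s, ∀ y : AA W,
      ‖conv (lvl W N M (dl W s)) (lvl W N M y) - lvl W N M (dl W s * y)‖
        ≤ (W.w s / B ^ 2) * ‖y‖ := by
    intro s y
    have h := op_bound ((convR (lvl W N M (dl W s))).comp (lvl W N M)
      - (lvl W N M).comp (lm (dl W s))) (W.w s / B ^ 2) (by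
        intro t
        refine (defect_dl W N M hN B hB hBw s t).trans (le_of_eq ?_)
        ring) y
    exact h
  have h := op_bound ((convL (lvl W N M y)).comp (lvl W N M)
      - (lvl W N M).comp (lm y)) (‖y‖ / B ^ 2) (by
        intro s
        have h2 := h1 s y
        rw [mul_comm (dl W s) y] at h2
        refine h2.trans (le_of_eq ?_)
        ring) x
  have e : lvl W N M (x * y) = lvl W N M (y * x) := by rw [mul_comm]
  rw [e]
  refine h.trans (le_of_eq ?_)
  ring

/-- The weight attached to a nondecreasing sequence `F` with `F 0 = 1`. -/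
noncomputable def mkWeight (F : ℕ → ℝ) (hF0 : F 0 = 1) (hF : Monotone F)
    (hF2 : Real.exp 1 ≤ F 2) : Weight where
  w := fun s => F (lev s) * Real.exp (-(s : ℝ) ^ 2)
  pos := by
    intro s
    have := hF (Nat.zero_le (lev s))
    have h2 : 0 < F (lev s) := by linarith
    positivity
  add_le := by
    intro s t
    have hone : ∀ n, 1 ≤ F n := fun n => by
      have := hF (Nat.zero_le n); linarith
    have h1 : F (lev (s + t)) ≤ F (lev s) * F (lev t) := by
      have h1 := hF (lev_add s t)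
      rcases max_choice (lev s) (lev t) with h | h
      · rw [h] at h1
        calc F (lev (s + t)) ≤ F (lev s) * 1 := by linarith
          _ ≤ F (lev s) * F (lev t) :=
            mul_le_mul_of_nonneg_left (hone _) (by linarith [hone (lev s)])
      · rw [h] at h1
        calc F (lev (s + t)) ≤ 1 * F (lev t) := by linarith
          _ ≤ F (lev s) * F (lev t) :=
            mul_le_mul_of_nonneg_right (hone _) (by linarith [hone (lev t)])
    have h2 : Real.exp (-(((s + t : ℚ≥0) : ℝ)) ^ 2)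
        ≤ Real.exp (-(s : ℝ) ^ 2) * Real.exp (-(t : ℝ) ^ 2) := by
      rw [← Real.exp_add, Real.exp_le_exp]
      push_cast
      have hs : (0 : ℝ) ≤ s := by positivity
      have ht : (0 : ℝ) ≤ t := by positivity
      nlinarith [mul_nonneg hs ht]
    calc F (lev (s + t)) * Real.exp (-(((s + t : ℚ≥0) : ℝ)) ^ 2)
        ≤ (F (lev s) * F (lev t)) * (Real.exp (-(s : ℝ) ^ 2) * Real.exp (-(t : ℝ) ^ 2)) := by
          apply mul_le_mul h1 h2 (by positivity)
          have h3 := hone (lev s)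
          have h4 := hone (lev t)
          positivity
      _ = _ := by ring
  zero := by
    rw [lev_zero, hF0]
    simp
  half := by
    have h1 : ¬ lev (1 / 2 : ℚ≥0) ≤ 1 := by
      rw [lev_le_iff]
      rintro ⟨m, hm⟩
      have h2 : (1 : ℚ≥0) = 2 * m := by
        rw [← hm]
        rw [Nat.factorial_one, Nat.cast_one, mul_one]
        rw [mul_one_div_cancel]
        norm_num
      have h3 : 1 = 2 * m := by exact_mod_cast h2
      omega
    have h2 : F 2 ≤ F (lev (1 / 2 : ℚ≥0)) := hF (by omega)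
    have h3 : Real.exp 1 * Real.exp (-((1 / 2 : ℚ≥0) : ℝ) ^ 2)
        ≤ F (lev (1 / 2 : ℚ≥0)) * Real.exp (-((1 / 2 : ℚ≥0) : ℝ) ^ 2) := by
      apply mul_le_mul_of_nonneg_right _ (Real.exp_pos _).le
      linarith
    refine le_trans ?_ h3
    rw [← Real.exp_add]
    apply Real.one_le_exp
    push_cast
    norm_num
  low := fun T => Real.exp ((T : ℝ) ^ 2)
  low_spec := by
    intro T s hs
    have h1 := hF (Nat.zero_le (lev s))
    rw [hF0] at h1
    have hs' : (s : ℝ) < T := by exact_mod_cast hs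
    have hs0 : (0 : ℝ) ≤ s := by positivity
    have h2 : 1 ≤ Real.exp ((T : ℝ) ^ 2) * Real.exp (-(s : ℝ) ^ 2) := by
      rw [← Real.exp_add]
      apply Real.one_le_exp
      nlinarith
    calc (1 : ℝ) ≤ 1 * (Real.exp ((T : ℝ) ^ 2) * Real.exp (-(s : ℝ) ^ 2)) := by
          rw [one_mul]; exact h2
      _ ≤ F (lev s) * (Real.exp ((T : ℝ) ^ 2) * Real.exp (-(s : ℝ) ^ 2)) :=
        mul_le_mul_of_nonneg_right h1 (by positivity)
      _ = _ := by ring
  rad := by
    intro s hs ε hε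
    have hs' : (0 : ℝ) < s := by exact_mod_cast hs
    have hF1 := hF (Nat.zero_le (lev s))
    rw [hF0] at hF1
    have hFpos : 0 < F (lev s) := by linarith
    obtain ⟨n, hn⟩ := exists_nat_gt ((Real.log (F (lev s)) - Real.log ε) / (s : ℝ) ^ 2)
    refine ⟨n + 1, by omega, ?_⟩
    have h1 : lev (((n + 1 : ℕ) : ℚ≥0) * s) ≤ lev s := by
      rw [lev_le_iff]
      obtain ⟨m, hm⟩ := lev_spec s
      exact ⟨(n + 1) * m, by rw [mul_assoc, hm]; push_cast; ring⟩
    have h2 := hF h1
    rw [div_lt_iff₀ (by positivity)] at hn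
    have hlog : 0 ≤ Real.log (F (lev s)) := Real.log_nonneg hF1
    calc F (lev (((n + 1 : ℕ) : ℚ≥0) * s)) * Real.exp (-((((n + 1 : ℕ) : ℚ≥0) * s : ℚ≥0) : ℝ) ^ 2)
        ≤ F (lev s) * Real.exp (-((((n + 1 : ℕ) : ℚ≥0) * s : ℚ≥0) : ℝ) ^ 2) :=
          mul_le_mul_of_nonneg_right h2 (Real.exp_pos _).le
      _ = Real.exp (Real.log (F (lev s)) + -((((n + 1 : ℕ) : ℚ≥0) * s : ℚ≥0) : ℝ) ^ 2) := by
          rw [Real.exp_add, Real.exp_log hFpos]
      _ ≤ Real.exp (((n + 1 : ℕ) : ℝ) * Real.log ε) := by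
          rw [Real.exp_le_exp]
          push_cast
          have h3 : (0 : ℝ) ≤ n := by positivity
          have h4 : Real.log (F (lev s)) - Real.log ε < (n + 1) * (s : ℝ) ^ 2 := by
            nlinarith [sq_nonneg (s : ℝ)]
          nlinarith
      _ = ε ^ (n + 1) := by
          rw [← Real.log_pow, Real.exp_log (by positivity)]

/-- The number of coefficients used at stage `k`. -/
def MM (k : ℕ) : ℕ := k * k ! + 1

lemma MM_pos (k : ℕ) : 0 < MM k := Nat.succ_pos _

/-- The stability constants. -/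
noncomputable def eps (k : ℕ) : ℝ :=
  Classical.choose (stab (N := MM k) (MM_pos k) ((k : ℝ) * Real.exp (((k : ℝ) + 1) ^ 2))
    (1 / ((k : ℝ) + 1)) (by positivity))

lemma eps_pos (k : ℕ) : 0 < eps k :=
  (Classical.choose_spec (stab (N := MM k) (MM_pos k) ((k : ℝ) * Real.exp (((k : ℝ) + 1) ^ 2))
    (1 / ((k : ℝ) + 1)) (by positivity))).1

lemma eps_spec (k : ℕ) : ∀ g : ℕ → Fin (MM k) → ℂ,
      (∀ i, MM k ≤ i → i ≤ 4 * MM k → ∀ j : Fin (MM k), (j : ℕ) = 0 → g i j = 0) →
      (∀ i, MM k ≤ i → i ≤ 4 * MM k → ‖g i‖ ≤ (k : ℝ) * Real.exp (((k : ℝ) + 1) ^ 2)) →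
      (∀ i j, MM k ≤ i → MM k ≤ j → i + j ≤ 4 * MM k → ‖conv (g i) (g j) - g (i + j)‖ ≤ eps k) →
      ‖g (4 * MM k)‖ ≤ 1 / ((k : ℝ) + 1) :=
  (Classical.choose_spec (stab (N := MM k) (MM_pos k) ((k : ℝ) * Real.exp (((k : ℝ) + 1) ^ 2))
    (1 / ((k : ℝ) + 1)) (by positivity))).2

/-- The rapidly growing sequence of level weights. -/
noncomputable def FF : ℕ → ℝ
  | 0 => 1
  | (k + 1) => max (FF k) (((k : ℝ) + 1) * (1 + 1 / eps k) * Real.exp (((k : ℝ) + 1) ^ 2))

lemma FF_mono : Monotone FF := monotone_nat_of_le_succ fun _ => le_max_left _ _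

lemma FF_ge (k : ℕ) :
    ((k : ℝ) + 1) * (1 + 1 / eps k) * Real.exp (((k : ℝ) + 1) ^ 2) ≤ FF (k + 1) :=
  le_max_right _ _

lemma FF_two : Real.exp 1 ≤ FF 2 := by
  refine le_trans ?_ (FF_ge 1)
  have h := eps_pos 1
  have h1 : 1 ≤ ((1 : ℕ) : ℝ) + 1 := by norm_num
  have h2 : (1 : ℝ) ≤ 1 + 1 / eps 1 := by
    have : 0 < 1 / eps 1 := by positivity
    linarith
  have h3 : Real.exp 1 ≤ Real.exp ((((1 : ℕ) : ℝ) + 1) ^ 2) := by
    rw [Real.exp_le_exp]; norm_num
  calc Real.exp 1 ≤ 1 * 1 * Real.exp ((((1 : ℕ) : ℝ) + 1) ^ 2) := by linarith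
    _ ≤ _ := by gcongr

/-- The weight of our example. -/
noncomputable def WW : Weight := mkWeight FF rfl FF_mono FF_two

lemma WW_w (s : ℚ≥0) : WW.w s = FF (lev s) * Real.exp (-(s : ℝ) ^ 2) := rfl

lemma WW_low (T : ℕ) : WW.low T = Real.exp ((T : ℝ) ^ 2) := rfl

lemma lt_of_lt_MM (k : ℕ) (s : ℚ≥0) (h : s * (k ! : ℕ) < (MM k : ℕ)) : s < ((k + 1 : ℕ) : ℚ≥0) := by
  have hk : 1 ≤ k ! := Nat.factorial_pos k
  have hN : (0 : ℚ≥0) < (k ! : ℕ) := by exact_mod_cast hk
  have h1 : ((MM k : ℕ) : ℚ≥0) ≤ ((k + 1 : ℕ) : ℚ≥0) * (k ! : ℕ) := by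
    have : MM k ≤ (k + 1) * k ! := by
      unfold MM
      nlinarith
    exact_mod_cast this
  exact lt_of_mul_lt_mul_right (h.trans_le h1) hN.le

lemma WW_ge (k : ℕ) (s : ℚ≥0) (hs : s * (k ! : ℕ) < (MM k : ℕ))
    (h : ¬ ∃ m : ℕ, s * (k ! : ℕ) = m) : ((k : ℝ) + 1) * (1 + 1 / eps k) ≤ WW.w s := by
  have h1 : ¬ lev s ≤ k := fun h' => h ((lev_le_iff s k).mp h')
  have h2 : FF (k + 1) ≤ FF (lev s) := FF_mono (by omega)
  have h3 := (FF_ge k).trans h2
  have h4 : (s : ℝ) < (k : ℝ) + 1 := by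
    have := lt_of_lt_MM k s hs
    exact_mod_cast this
  have h5 : (0 : ℝ) ≤ s := by positivity
  have he := eps_pos k
  rw [WW_w]
  calc ((k : ℝ) + 1) * (1 + 1 / eps k)
      = ((k : ℝ) + 1) * (1 + 1 / eps k) * 1 := by ring
    _ ≤ ((k : ℝ) + 1) * (1 + 1 / eps k)
        * (Real.exp (((k : ℝ) + 1) ^ 2) * Real.exp (-(s : ℝ) ^ 2)) := by
        apply mul_le_mul_of_nonneg_left _ (by positivity)
        rw [← Real.exp_add]
        apply Real.one_le_exp
        nlinarith
    _ = (((k : ℝ) + 1) * (1 + 1 / eps k) * Real.exp (((k : ℝ) + 1) ^ 2))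
        * Real.exp (-(s : ℝ) ^ 2) := by ring
    _ ≤ _ := mul_le_mul_of_nonneg_right h3 (Real.exp_pos _).le

/-- A semigroup in the radical which is bounded on `[c, 4c]` vanishes at `4c`. -/
theorem semigroup_vanish (b : ℝ → AA WW) (hb : ∀ s t, 0 < s → 0 < t → b (s + t) = b s * b t)
    (hrad : ∀ t, 0 < t → cf WW 0 (b t) = 0) (c : ℝ) (hc : 0 < c) (C : ℝ)
    (hC : ∀ t, c ≤ t → t ≤ 4 * c → ‖b t‖ ≤ C) : b (4 * c) = 0 := by
  -- main estimate
  have main : ∀ k : ℕ, C ≤ k → ‖lvl WW (k !) (MM k) (b (4 * c))‖ ≤ 1 / ((k : ℝ) + 1) := by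
    intro k hk
    have hC0 : 0 ≤ C := (norm_nonneg _).trans (hC c le_rfl (by linarith))
    have hNpos : (0 : ℝ) < (MM k : ℕ) := by exact_mod_cast MM_pos k
    have hbound : ∀ i : ℕ, MM k ≤ i → i ≤ 4 * MM k → ‖b (c * (i / (MM k : ℕ)))‖ ≤ C := by
      intro i hi hi4
      apply hC
      · have : (1 : ℝ) ≤ (i : ℝ) / (MM k : ℕ) := by
          rw [le_div_iff₀ hNpos, one_mul]; exact_mod_cast hi
        nlinarith
      · have : (i : ℝ) / (MM k : ℕ) ≤ 4 := by
          rw [div_le_iff₀ hNpos]; exact_mod_cast hi4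
        nlinarith
    have hposi : ∀ i : ℕ, MM k ≤ i → 0 < c * ((i : ℝ) / (MM k : ℕ)) := by
      intro i hi
      have : (0 : ℝ) < i := by
        have := MM_pos k
        exact_mod_cast (by omega : 0 < i)
      positivity
    have key := eps_spec k (fun i => lvl WW (k !) (MM k) (b (c * (i / (MM k : ℕ))))) ?_ ?_ ?_
    · have e : c * (((4 * MM k : ℕ) : ℝ) / (MM k : ℕ)) = 4 * c := by
        push_cast
        field_simp
      rw [e] at key
      exact key
    · intro i hi _ j hj
      rw [lvl_apply, hj, Nat.cast_zero, zero_div]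
      exact hrad _ (hposi i hi)
    · intro i hi hi4
      have h1 := (hbound i hi hi4).trans hk
      have hK : 0 ≤ (k : ℝ) * Real.exp (((k : ℝ) + 1) ^ 2) := by positivity
      rw [pi_norm_le_iff_of_nonneg hK]
      intro j
      rw [lvl_apply]
      have h2 := norm_cf_le_low WW (k + 1) (((j : ℕ) : ℚ≥0) / (k ! : ℕ)) (by
        apply lt_of_lt_MM
        have hN : ((k ! : ℕ) : ℚ≥0) ≠ 0 := by exact_mod_cast (Nat.factorial_pos k).ne'
        rw [div_mul_cancel₀ _ hN]
        exact_mod_cast j.2) (b (c * (i / (MM k : ℕ))))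
      refine h2.trans ?_
      rw [WW_low]
      push_cast
      rw [mul_comm]
      gcongr
    · intro i j hi hj hij
      have hadd : c * (((i + j : ℕ) : ℝ) / (MM k : ℕ))
          = c * (i / (MM k : ℕ)) + c * (j / (MM k : ℕ)) := by
        push_cast; ring
      rw [hadd, hb _ _ (hposi i hi) (hposi j hj)]
      have hε := eps_pos k
      have hB : 0 < ((k : ℝ) + 1) * (1 + 1 / eps k) := by positivity
      have h1 := lvl_mul_err WW (k !) (MM k) (Nat.factorial_pos k)
        (((k : ℝ) + 1) * (1 + 1 / eps k)) hB (fun s hs hns => WW_ge k s hs hns)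
        (b (c * (i / (MM k : ℕ)))) (b (c * (j / (MM k : ℕ))))
      refine h1.trans ?_
      have hi' := (hbound i hi (by omega)).trans hk
      have hj' := (hbound j hj (by omega)).trans hk
      have h2 : ‖b (c * (i / (MM k : ℕ)))‖ * ‖b (c * (j / (MM k : ℕ)))‖ ≤ ((k : ℝ) + 1) ^ 2 := by
        have hk0 : (0 : ℝ) ≤ k := by positivity
        calc ‖b (c * (i / (MM k : ℕ)))‖ * ‖b (c * (j / (MM k : ℕ)))‖ ≤ (k : ℝ) * k :=
              mul_le_mul hi' hj' (norm_nonneg _) hk0
          _ ≤ ((k : ℝ) + 1) ^ 2 := by nlinarith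
      rw [div_le_iff₀ (by positivity), mul_pow]
      have h3 : 1 ≤ eps k * (1 + 1 / eps k) ^ 2 := by
        have : eps k * (1 + 1 / eps k) = eps k + 1 := by field_simp
        have h4 : eps k * (1 + 1 / eps k) ^ 2 = (eps k + 1) * (1 + 1 / eps k) := by
          rw [sq, ← mul_assoc, this]
        rw [h4]
        have h5 : 0 < 1 / eps k := by positivity
        nlinarith
      calc ‖b (c * (i / (MM k : ℕ)))‖ * ‖b (c * (j / (MM k : ℕ)))‖ ≤ ((k : ℝ) + 1) ^ 2 * 1 := by
            rw [mul_one]; exact h2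
        _ ≤ ((k : ℝ) + 1) ^ 2 * (eps k * (1 + 1 / eps k) ^ 2) :=
            mul_le_mul_of_nonneg_left h3 (by positivity)
        _ = eps k * (((k : ℝ) + 1) ^ 2 * (1 + 1 / eps k) ^ 2) := by ring
  -- all coefficients vanish
  apply eq_zero_of_cf
  intro s
  have hle : ∀ k : ℕ, C ≤ k → lev s ≤ k → s ≤ k → ‖cf WW s (b (4 * c))‖ ≤ 1 / ((k : ℝ) + 1) := by
    intro k hk hlev hsk
    obtain ⟨m, hm⟩ := (lev_le_iff s k).mp hlev
    have hNpos : (0 : ℚ≥0) < (k ! : ℕ) := by exact_mod_cast Nat.factorial_pos k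
    have hmN : m < MM k := by
      have h1 : s * (k ! : ℕ) ≤ k * (k ! : ℕ) := mul_le_mul_of_nonneg_right hsk hNpos.le
      rw [hm] at h1
      have h2 : m ≤ k * k ! := by exact_mod_cast h1
      unfold MM
      omega
    have h1 : s = (((⟨m, hmN⟩ : Fin (MM k)) : ℕ) : ℚ≥0) / (k ! : ℕ) := by
      rw [eq_div_iff hNpos.ne']; exact hm
    have h2 : cf WW s (b (4 * c)) = lvl WW (k !) (MM k) (b (4 * c)) ⟨m, hmN⟩ := by
      rw [lvl_apply, ← h1]
    rw [h2]
    exact (norm_le_pi_norm _ _).trans (main k hk)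
  rw [← norm_eq_zero]
  apply le_antisymm _ (norm_nonneg _)
  have hlim := tendsto_one_div_add_atTop_nhds_zero_nat (𝕜 := ℝ)
  apply ge_of_tendsto hlim
  obtain ⟨k0, hk0⟩ := exists_nat_ge C
  obtain ⟨k1, hk1⟩ := exists_nat_ge s
  filter_upwards [Filter.eventually_ge_atTop (max (max k0 k1) (lev s))] with k hk
  have hk' : k0 ≤ k ∧ k1 ≤ k ∧ lev s ≤ k := by omega
  apply hle k
  · exact hk0.trans (by exact_mod_cast hk'.1)
  · exact hk'.2.2
  · exact hk1.trans (by exact_mod_cast hk'.2.1)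

end Pool.Agent.RadSemi
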