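import Mathlib
import Pool.Agent.MP3d411c.ExpLog
import Pool.Agent.RadSemi.Alg

set_option autoImplicit false

namespace Pool.Agent.RadSemi

open NormedSpace Filter Topology
open Pool.Agent.MP3d411c (ex_add ex_zero)

section General

variable {A : Type*} [NormedCommRing A] [NormedAlgebra ℂ A] [CompleteSpace A]

/-- Elements close to `1` are exponentials. -/
lemma exists_delta : ∃ δ : ℝ, 0 < δ ∧ ∀ u : A, ‖u - 1‖ < δ → ∃ y : A, exp y = u := by
  have h : HasStrictFDerivAt (exp : A → A) (1 : A →L[ℂ] A) 0 := hasStrictFDerivAt_exp_zero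
  have h2 := h.map_nhds_eq_of_surj (by
    rw [LinearMap.range_eq_top]
    intro y
    exact ⟨y, rfl⟩)
  have h3 : Set.range (exp : A → A) ∈ 𝓝 (1 : A) := by
    rw [← exp_zero (𝔸 := A), ← h2]
    exact Filter.range_mem_map
  obtain ⟨δ, hδ, hb⟩ := Metric.mem_nhds_iff.mp h3
  refine ⟨δ, hδ, fun u hu => ?_⟩
  have : u ∈ Metric.ball (1 : A) δ := by
    rw [Metric.mem_ball, dist_eq_norm]; exact hu
  exact hb this

/-- A segment of units starting at `1` consists of exponentials. -/
lemma exists_log_of_path (m : A) (h : ∀ t : ℝ, IsUnit (1 + (t : ℂ) • m)) :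
    ∃ y : A, exp y = 1 + m := by
  obtain ⟨δ, hδ, hexp⟩ := exists_delta (A := A)
  -- a bound for the inverses on `[0,1]`
  have hcont : ContinuousOn (fun t : ℝ => ‖Ring.inverse (1 + (t : ℂ) • m)‖) (Set.Icc 0 1) := by
    intro t _
    apply ContinuousAt.continuousWithinAt
    apply ContinuousAt.norm
    obtain ⟨u, hu⟩ := h t
    have h1 : ContinuousAt Ring.inverse (1 + (t : ℂ) • m) := by
      rw [← hu]; exact NormedRing.inverse_continuousAt u
    exact ContinuousAt.comp (f := fun t : ℝ => 1 + (t : ℂ) • m) h1 (by fun_prop)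
  obtain ⟨M, hM⟩ := (isCompact_Icc.bddAbove_image hcont)
  have hM' : ∀ t : ℝ, 0 ≤ t → t ≤ 1 → ‖Ring.inverse (1 + (t : ℂ) • m)‖ ≤ M := by
    intro t h0 h1
    exact hM ⟨t, ⟨h0, h1⟩, rfl⟩
  obtain ⟨N, hN⟩ := exists_nat_gt (‖m‖ * |M| / δ)
  have hNpos : (0 : ℝ) < N := lt_of_le_of_lt (by positivity) hN
  have key : ∀ j : ℕ, j ≤ N → ∃ y : A, exp y = 1 + (((j : ℝ) / N : ℝ) : ℂ) • m := by
    intro j
    induction j with
    | zero => intro _; exact ⟨0, by simp⟩
    | succ j ih =>
      intro hj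
      obtain ⟨y, hy⟩ := ih (by omega)
      set t : ℝ := (j : ℝ) / N with ht
      have ht0 : 0 ≤ t := by positivity
      have ht1 : t ≤ 1 := by
        rw [ht, div_le_one hNpos]
        exact_mod_cast (by omega : j ≤ N)
      obtain ⟨y', hy'⟩ := hexp ((1 + ((((j + 1 : ℕ) : ℝ) / N : ℝ) : ℂ) • m) *
        Ring.inverse (1 + (t : ℂ) • m)) (by
        have e1 : (1 + ((((j + 1 : ℕ) : ℝ) / N : ℝ) : ℂ) • m)
            = (1 + (t : ℂ) • m) + ((1 / N : ℝ) : ℂ) • m := by
          rw [add_assoc, ← add_smul]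
          congr 2
          rw [ht]
          push_cast
          ring
        rw [e1, add_mul, Ring.mul_inverse_cancel _ (h t), add_sub_cancel_left]
        refine lt_of_le_of_lt (norm_mul_le _ _) ?_
        rw [norm_smul]
        have h3 : ‖((1 / N : ℝ) : ℂ)‖ = 1 / N := by
          rw [Complex.norm_real, Real.norm_eq_abs, abs_of_pos (by positivity)]
        rw [h3]
        have h4 := (hM' t ht0 ht1).trans (le_abs_self M)
        calc 1 / (N : ℝ) * ‖m‖ * ‖Ring.inverse (1 + (t : ℂ) • m)‖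
            ≤ 1 / (N : ℝ) * ‖m‖ * |M| := by gcongr
          _ = ‖m‖ * |M| / N := by ring
          _ < δ := by
            rw [div_lt_iff₀ hNpos]
            rw [div_lt_iff₀ hδ] at hN
            linarith)
      refine ⟨y + y', ?_⟩
      rw [ex_add, hy, hy', mul_comm, mul_assoc, Ring.inverse_mul_cancel _ (h t), mul_one]
  obtain ⟨y, hy⟩ := key N le_rfl
  refine ⟨y, ?_⟩
  rw [hy, div_self hNpos.ne']
  simp

end General

/-- Logarithms of positive scalars plus elements of the radical. -/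
lemma exists_log (W : Weight) (c : ℝ) (hc : 0 < c) (n : AA W) (hn : cf W 0 n = 0) :
    ∃ y : AA W, exp y = algebraMap ℂ (AA W) c + n := by
  obtain ⟨y, hy⟩ := exists_log_of_path (((c⁻¹ : ℝ) : ℂ) • n) (by
    intro t
    apply isUnit_of_cf_ne_zero
    rw [map_add, map_smul, map_smul, hn, cf_zero_one]
    simp)
  refine ⟨algebraMap ℂ (AA W) (Real.log c) + y, ?_⟩
  rw [ex_add, hy]
  have h1 : exp (algebraMap ℂ (AA W) (Real.log c)) = algebraMap ℂ (AA W) c := by
    rw [← algebraMap_exp_comm (𝕂 := ℂ)]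
    rw [← Complex.exp_eq_exp_ℂ, ← Complex.ofReal_exp, Real.exp_log hc]
  rw [h1, mul_add, mul_one]
  congr 1
  rw [Algebra.smul_def, ← mul_assoc, ← map_mul, ← Complex.ofReal_mul, mul_inv_cancel₀ hc.ne']
  simp

end Pool.Agent.RadSemi
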