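import Mathlib
import Pool.Agent.RadSemi.Semi
import Pool.Agent.RadSemi.Lev
import Pool.Agent.RadSemi.Dom

set_option autoImplicit false

namespace Pool.Agent.RadSemi

open Filter Topology

/-- The radical of `AA WW`, as a non-unital subalgebra. -/
noncomputable def RR : NonUnitalSubalgebra ℂ (AA WW) where
  carrier := {x | cf WW 0 x = 0}
  add_mem' := by
    intro x y hx hy
    simp only [Set.mem_ofPred_eq] at *
    rw [map_add, hx, hy, add_zero]
  zero_mem' := map_zero _
  mul_mem' := by
    intro x y hx hy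
    simp only [Set.mem_ofPred_eq] at *
    rw [cf_zero_mul, hx, zero_mul]
  smul_mem' := by
    intro c x hx
    simp only [Set.mem_ofPred_eq] at *
    rw [map_smul, hx, smul_zero]

lemma mem_RR (x : AA WW) : x ∈ RR ↔ cf WW 0 x = 0 := Iff.rfl

lemma isClosed_RR : IsClosed (RR : Set (AA WW)) := by
  have : (RR : Set (AA WW)) = (cf WW 0) ⁻¹' {0} := by
    ext x
    exact mem_RR x
  rw [this]
  exact isClosed_singleton.preimage (cf WW 0).continuous

/-- The type of the example. -/
def R0 : Type := RR

noncomputable instance : NonUnitalNormedCommRing R0 := inferInstanceAs (NonUnitalNormedCommRing RR)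

noncomputable instance : Module ℂ R0 := inferInstanceAs (Module ℂ RR)

/-- The inclusion of the radical algebra into `AA WW`. -/
def inc (x : R0) : AA WW := Subtype.val (show RR from x)

noncomputable instance : NormedSpace ℂ R0 where
  norm_smul_le c x := norm_smul_le c (inc x)

lemma inc_injective {x y : R0} (h : inc x = inc y) : x = y := Subtype.ext h

lemma inc_mem (x : R0) : cf WW 0 (inc x) = 0 := Subtype.property (show RR from x)

lemma exists_inc (x : AA WW) (hx : cf WW 0 x = 0) : ∃ y : R0, inc y = x := ⟨⟨x, hx⟩, rfl⟩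

lemma inc_mul (x y : R0) : inc (x * y) = inc x * inc y := rfl

lemma inc_zero : inc 0 = 0 := rfl

lemma inc_smul (c : ℂ) (x : R0) : inc (c • x) = c • inc x := rfl

lemma norm_inc (x : R0) : ‖inc x‖ = ‖x‖ := rfl

instance : IsScalarTower ℂ R0 R0 := ⟨by
  intro c x y
  apply inc_injective
  show inc ((c • x) * y) = inc (c • (x * y))
  rw [inc_mul, inc_smul, inc_smul, inc_mul, smul_mul_assoc]⟩

instance : SMulCommClass ℂ R0 R0 := ⟨by
  intro c x y
  apply inc_injective
  show inc (c • (x * y)) = inc (x * (c • y))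
  rw [inc_mul, inc_smul, inc_smul, inc_mul, mul_smul_comm]⟩

instance : CompleteSpace R0 := isClosed_RR.completeSpace_coe

instance (W : Weight) : TopologicalSpace.SeparableSpace (A0 W) := by
  have h1 : TopologicalSpace.IsSeparable (Set.range (fun s : ℚ≥0 => mon W s 1)) :=
    (Set.countable_range _).isSeparable
  have h2 := h1.span (R := ℂ)
  have h3 : (Submodule.span ℂ (Set.range (fun s : ℚ≥0 => mon W s 1)) : Set (A0 W)) = Set.univ := by
    rw [Set.eq_univ_iff_forall]
    intro x
    induction x using A0_induction with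
    | h0 => exact Submodule.zero_mem _
    | hadd x y hx hy => exact Submodule.add_mem _ hx hy
    | hmon s c =>
      rw [mon_eq_smul]
      exact Submodule.smul_mem _ _ (Submodule.subset_span ⟨s, rfl⟩)
  rw [h3] at h2
  exact TopologicalSpace.isSeparable_univ_iff.mp h2

instance : TopologicalSpace.SeparableSpace R0 := by
  have h1 : TopologicalSpace.SeparableSpace (AA WW) :=
    (UniformSpace.Completion.denseRange_coe (α := A0 WW)).separableSpace
      (UniformSpace.Completion.continuous_coe _)
  have h2 : SecondCountableTopology (AA WW) := UniformSpace.secondCountable_of_separable _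
  have h3 : TopologicalSpace.SeparableSpace RR := inferInstance
  exact h3

/-- `pw x n = x^(n+1)`. -/
def pw {R : Type} [NonUnitalNormedCommRing R] (x : R) : ℕ → R
  | 0 => x
  | n + 1 => pw x n * x

/-- Every element of `R` is quasinilpotent: `‖x^n‖^(1/n) → 0`. -/
def IsRadical (R : Type) [NonUnitalNormedCommRing R] : Prop :=
  ∀ x : R, Tendsto (fun n : ℕ => ‖pw x n‖ ^ (1 / ((n : ℝ) + 1))) atTop (𝓝 0)

/-- `a` restricts to a homomorphism from the additive semigroup `(0,∞)` into `(R, ·)`. -/
def IsRealSemigroup {R : Type} [NonUnitalNormedCommRing R] (a : ℝ → R) : Prop :=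
  ∀ s t : ℝ, 0 < s → 0 < t → a (s + t) = a s * a t

lemma inc_pw (x : R0) (n : ℕ) : inc (pw x n) = inc x ^ (n + 1) := by
  induction n with
  | zero => rw [zero_add, pow_one]; rfl
  | succ n ih =>
    show inc (pw x n * x) = _
    rw [inc_mul, ih, ← pow_succ]

lemma radical_R0 : IsRadical R0 := by
  intro x
  have h1 := spectrum.pow_norm_pow_one_div_tendsto_nhds_spectralRadius (inc x)
  have h2 : spectralRadius ℂ (inc x) = 0 := by
    unfold spectralRadius
    rw [spectrum_eq, inc_mem]
    simp
  rw [h2] at h1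
  have h3 := (ENNReal.tendsto_toReal ENNReal.zero_ne_top).comp h1
  have h4 := (tendsto_add_atTop_iff_nat 1).mpr h3
  rw [ENNReal.toReal_zero] at h4
  refine h4.congr fun n => ?_
  show (ENNReal.ofReal (‖inc x ^ (n + 1)‖ ^ (1 / ((n + 1 : ℕ) : ℝ)))).toReal = _
  rw [ENNReal.toReal_ofReal (by positivity), ← inc_pw, norm_inc]
  push_cast
  rfl

lemma domain_R0 (x y : R0) (h : x * y = 0) : x = 0 ∨ y = 0 := by
  have h1 : inc x * inc y = 0 := by rw [← inc_mul, h, inc_zero]
  rcases eq_zero_or_of_mul WW _ _ h1 with h2 | h2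
  · left; exact inc_injective h2
  · right; exact inc_injective h2

/-- Positive integer multiples of the time. -/
lemma semigroup_nsmul (b : ℝ → R0) (hb : IsRealSemigroup b) (t : ℝ) (ht : 0 < t) (n : ℕ) :
    b (((n : ℝ) + 1) * t) = pw (b t) n := by
  induction n with
  | zero => simp [pw]
  | succ n ih =>
    show _ = pw (b t) n * b t
    rw [← ih, ← hb _ _ (by positivity) ht]
    congr 1
    push_cast
    ring

lemma pw_eq_zero (x : R0) (n : ℕ) (h : pw x n = 0) : x = 0 := by
  induction n with
  | zero => exact h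
  | succ n ih =>
    rcases domain_R0 _ _ h with h1 | h1
    · exact ih h1
    · exact h1

/-- One vanishing value forces the semigroup to vanish. -/
lemma vanish_of_le (b : ℝ → R0) (hb : IsRealSemigroup b) (s : ℝ) (hs : 0 < s) (h : b s = 0)
    (t : ℝ) (ht : 0 < t) : b t = 0 := by
  -- choose `n` with `(n+1) t > s`
  obtain ⟨n, hn⟩ := exists_nat_gt (s / t)
  rw [div_lt_iff₀ ht] at hn
  apply pw_eq_zero (b t) n
  rw [← semigroup_nsmul b hb t ht n]
  have e : ((n : ℝ) + 1) * t = s + (((n : ℝ) + 1) * t - s) := by ring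
  rw [e, hb s _ hs (by nlinarith), h, zero_mul]

lemma norm_pw_le (x : R0) (C : ℝ) (hC : 1 ≤ C) (hx : ‖x‖ ≤ C) (n : ℕ) : ‖pw x n‖ ≤ C ^ (n + 1) := by
  induction n with
  | zero => rw [zero_add, pow_one]; exact hx
  | succ n ih =>
    show ‖pw x n * x‖ ≤ _
    refine (norm_mul_le _ _).trans ?_
    rw [pow_succ C (n + 1)]
    exact mul_le_mul ih hx (norm_nonneg _) (by positivity)

/-- A semigroup bounded on an interval vanishes. -/
theorem vanish_of_bounded (b : ℝ → R0) (hb : IsRealSemigroup b) (u v : ℝ) (hu : 0 < u)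
    (huv : u < v) (C : ℝ) (hC : ∀ t, u < t → t < v → ‖b t‖ ≤ C) (t : ℝ) (ht : 0 < t) :
    b t = 0 := by
  -- `c` so large that every `t ≥ c` has an integer `n` with `u < t / n < v`
  have hv : 0 < v := hu.trans huv
  set c : ℝ := 2 * (u * v) / (v - u) with hc
  have hvu : 0 < v - u := by linarith
  have hcpos : 0 < c := by positivity
  obtain ⟨K, hK⟩ := exists_nat_gt (4 * c / u)
  set D : ℝ := max C 1 with hD
  have hD1 : 1 ≤ D := le_max_right _ _
  have hbd : ∀ s, c ≤ s → s ≤ 4 * c → ‖b s‖ ≤ D ^ K := by
    intro s hs hs4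
    have hspos : 0 < s := hcpos.trans_le hs
    -- an integer strictly between `s / v` and `s / u`
    have h1 : s / v + 1 < s / u := by
      have h2 : s / u - s / v = s * (v - u) / (u * v) := by field_simp
      have h3 : 2 ≤ s * (v - u) / (u * v) := by
        rw [le_div_iff₀ (by positivity)]
        rw [hc, div_le_iff₀ hvu] at hs
        linarith
      linarith
    set m : ℕ := ⌊s / v⌋₊ with hm
    have hm1 : (m : ℝ) ≤ s / v := Nat.floor_le (by positivity)
    have hm2 : s / v < (m : ℝ) + 1 := Nat.lt_floor_add_one _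
    have hm3 : (m : ℝ) + 1 < s / u := by linarith
    have hmpos : (0 : ℝ) < (m : ℝ) + 1 := by positivity
    have hsm : s = ((m : ℝ) + 1) * (s / ((m : ℝ) + 1)) := by field_simp
    have hlt1 : u < s / ((m : ℝ) + 1) := by
      rw [lt_div_iff₀ hmpos]
      rw [lt_div_iff₀ hu] at hm3
      linarith
    have hlt2 : s / ((m : ℝ) + 1) < v := by
      rw [div_lt_iff₀ hmpos]
      rw [div_lt_iff₀ hv] at hm2
      linarith
    rw [hsm, semigroup_nsmul b hb _ (by positivity) m]
    have h5 := norm_pw_le (b (s / ((m : ℝ) + 1))) D hD1 ((hC _ hlt1 hlt2).trans (le_max_left _ _)) m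
    refine h5.trans ?_
    apply pow_le_pow_right₀ hD1
    have h6 : (m : ℝ) + 1 < K := by
      have : s / u ≤ 4 * c / u := by gcongr
      linarith
    have h7 : m + 1 < K := by exact_mod_cast h6
    omega
  have h4 : b (4 * c) = 0 := by
    apply inc_injective
    rw [inc_zero]
    exact semigroup_vanish (fun t => inc (b t))
      (by
        intro s t hs ht
        show inc (b (s + t)) = _
        rw [hb s t hs ht]
        rfl)
      (fun t _ => inc_mem (b t)) c hcpos (D ^ K)
      (by
        intro t h1 h2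
        rw [norm_inc]
        exact hbd t h1 h2)
  exact vanish_of_le b hb (4 * c) (by positivity) h4 t ht

/-- A real semigroup in `R0` without zero values. -/
theorem exists_semigroup : ∃ a : ℝ → R0, IsRealSemigroup a ∧ ∀ t : ℝ, 0 < t → a t ≠ 0 := by
  obtain ⟨a, ha, harad, t0, ht0, hat0⟩ := exists_real_semigroup WW
  have hex : ∀ t : ℝ, ∃ y : R0, 0 < t → inc y = a t := by
    intro t
    by_cases ht : 0 < t
    · obtain ⟨y, hy⟩ := exists_inc (a t) (harad t ht)
      exact ⟨y, fun _ => hy⟩
    · exact ⟨0, fun h => absurd h ht⟩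
  choose a' ha' using hex
  have hsg : IsRealSemigroup a' := by
    intro s t hs ht
    apply inc_injective
    rw [inc_mul, ha' _ hs, ha' _ ht, ha' _ (by linarith), ha s t hs ht]
  refine ⟨a', hsg, ?_⟩
  intro t ht h
  apply hat0
  rw [← ha' t0 ht0, vanish_of_le a' hsg t ht h t0 ht0, inc_zero]

end Pool.Agent.RadSemi
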